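import Pool.Agent.Lib_MP_418a80_an.GroupVN

/-!
# Actions on group von Neumann algebras implemented by monomial unitaries
-/

set_option linter.unusedSectionVars false

namespace Pool.Agent.ErgCoc

open scoped ENNReal ComplexConjugate
open Classical

universe u v

/-- Implementing data for an action of `G` on `L(Γ)`. -/
structure Impl (G : Type v) [Group G] (Γ : Type u) [Group Γ] where
  U : G →* (L2 Γ ≃ₗᵢ[ℂ] L2 Γ)
  θ : G → Γ → Γ
  z : G → Γ → ℂ
  lam_rel : ∀ g s (ξ : L2 Γ), U g (lam s ξ) = z g s • lam (θ g s) (U g ξ)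
  rho_rel : ∀ g s, ∃ (s' : Γ) (w : ℂ), ∀ ξ : L2 Γ, U g (rho s ξ) = w • rho s' (U g ξ)

namespace Impl

variable {Γ : Type u} [Group Γ] {G : Type v} [Group G] (I : Impl G Γ)

/-- the implementing unitaries as bounded operators -/
noncomputable def u (g : G) : L2 Γ →L[ℂ] L2 Γ := (I.U g : L2 Γ →L[ℂ] L2 Γ)

theorem u_apply (g : G) (ξ : L2 Γ) : I.u g ξ = I.U g ξ := rfl

theorem u_mul (g h : G) : I.u (g * h) = I.u g * I.u h := by
  ext1 ξ
  rw [mulv, u_apply, u_apply, u_apply, map_mul]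
  rfl

theorem u_one : I.u 1 = 1 := by
  ext1 ξ
  rw [u_apply, map_one]
  rfl

theorem u_inv_mul (g : G) : I.u g⁻¹ * I.u g = 1 := by
  rw [← u_mul, inv_mul_cancel, u_one]

theorem u_mul_inv (g : G) : I.u g * I.u g⁻¹ = 1 := by
  rw [← u_mul, mul_inv_cancel, u_one]

theorem star_u (g : G) : star (I.u g) = I.u g⁻¹ := by
  have h1 : star (I.u g) = ((I.U g).symm : L2 Γ →L[ℂ] L2 Γ) := by
    unfold u
    exact LinearIsometryEquiv.star_eq_symm _
  rw [h1]
  ext1 ξ
  rw [u_apply, map_inv]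
  rfl

theorem u_lam (g : G) (s : Γ) : I.u g * lam s = I.z g s • (lam (I.θ g s) * I.u g) := by
  ext1 ξ
  exact I.lam_rel g s ξ

theorem u_rho (g : G) (s : Γ) : ∃ (s' : Γ) (w : ℂ), I.u g * rho s = w • (rho s' * I.u g) := by
  obtain ⟨s', w, h⟩ := I.rho_rel g s
  refine ⟨s', w, ?_⟩
  ext1 ξ
  exact h ξ

theorem conj_mem {x : L2 Γ →L[ℂ] L2 Γ} (hx : x ∈ LG Γ) (g : G) :
    I.u g * x * I.u g⁻¹ ∈ LG Γ := by
  rw [mem_LG]
  intro t
  obtain ⟨t', w, h⟩ := I.u_rho g⁻¹ t
  have h1 : I.u g * x * I.u g⁻¹ * rho t = w • (I.u g * (x * rho t') * I.u g⁻¹) := by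
    rw [mul_assoc (I.u g * x), h]
    simp only [mul_smul_comm, mul_assoc]
  have h2 : rho t = w • (I.u g * rho t' * I.u g⁻¹) := by
    have : rho t = I.u g * (I.u g⁻¹ * rho t) := by
      rw [← mul_assoc, u_mul_inv, one_mul]
    rw [this, h]
    simp only [mul_smul_comm, mul_assoc]
  rw [h1, ← (mem_LG.1 hx t'), h2]
  simp only [smul_mul_assoc]
  congr 1
  calc I.u g * rho t' * I.u g⁻¹ * (I.u g * x * I.u g⁻¹)
      = I.u g * rho t' * (I.u g⁻¹ * I.u g) * x * I.u g⁻¹ := by simp only [mul_assoc]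
    _ = I.u g * (rho t' * x) * I.u g⁻¹ := by rw [u_inv_mul]; simp only [mul_assoc, one_mul]

/-- The action `α_g(x) = U_g x U_g^{-1}` of `G` on `L(Γ)`. -/
noncomputable def act (g : G) (x : L2 Γ →L[ℂ] L2 Γ) : L2 Γ →L[ℂ] L2 Γ := I.u g * x * I.u g⁻¹

theorem isAction : IsAction (LG Γ) I.act where
  map_mem := fun g x hx => I.conj_mem hx g
  map_add := by
    intro g x _ y _
    show I.u g * (x + y) * I.u g⁻¹ = I.u g * x * I.u g⁻¹ + I.u g * y * I.u g⁻¹
    rw [mul_add, add_mul]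
  map_mul := by
    intro g x _ y _
    show I.u g * (x * y) * I.u g⁻¹ = I.u g * x * I.u g⁻¹ * (I.u g * y * I.u g⁻¹)
    calc I.u g * (x * y) * I.u g⁻¹ = I.u g * x * 1 * y * I.u g⁻¹ := by
          simp only [mul_assoc, one_mul]
      _ = I.u g * x * (I.u g⁻¹ * I.u g) * y * I.u g⁻¹ := by rw [u_inv_mul]
      _ = _ := by simp only [mul_assoc]
  map_smul := by
    intro g c x _
    show I.u g * (c • x) * I.u g⁻¹ = c • (I.u g * x * I.u g⁻¹)
    rw [mul_smul_comm, smul_mul_assoc]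
  map_star := by
    intro g x _
    show I.u g * (star x) * I.u g⁻¹ = star (I.u g * x * I.u g⁻¹)
    rw [star_mul, star_mul, star_u, star_u, inv_inv, mul_assoc]
  one_act := by
    intro x _
    show I.u 1 * x * I.u 1⁻¹ = x
    rw [inv_one, u_one]; simp
  mul_act := by
    intro g h x _
    show I.u (g * h) * x * I.u (g * h)⁻¹ = I.u g * (I.u h * x * I.u h⁻¹) * I.u g⁻¹
    rw [mul_inv_rev, u_mul, u_mul]
    simp only [mul_assoc]

/-- `ℓ²(G, L2 Γ)` with its canonical embeddings -/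
noncomputable def J (G : Type v) [Group G] (Γ : Type u) [Group Γ] (g : G) :
    L2 Γ →L[ℂ] lp (fun _ : G => L2 Γ) 2 :=
  lp.singleContinuousLinearMap ℂ (fun _ : G => L2 Γ) 2 g

theorem J_apply (g : G) (ξ : L2 Γ) : J G Γ g ξ = lp.single 2 g ξ := rfl

theorem isEllTwo : IsEllTwo (J G Γ) where
  inner_self := by
    intro g ξ η
    rw [J_apply, J_apply, lp.inner_single_left, lp.single_apply_self]
  inner_ne := by
    intro g h ξ η hgh
    rw [J_apply, J_apply, lp.inner_single_left, lp.single_apply_ne _ _ _ hgh, inner_zero_right]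
  total := by
    intro ζ h
    ext1
    funext g
    show ζ g = 0
    have h1 := h g (ζ g)
    rw [J_apply, lp.inner_single_left] at h1
    exact inner_self_eq_zero.1 h1

/-- freeness criterion -/
def Free : Prop :=
  ∀ g : G, g ≠ 1 → ∀ w ∈ LG Γ,
    (∀ s, w * lam s = (I.u g * lam s * I.u g⁻¹) * w) → w = 0

/-- `λ_s` as a linear isometry equivalence conjugated by `U_{g}` -/
noncomputable def pIso (s : Γ) (g : G) : L2 Γ ≃ₗᵢ[ℂ] L2 Γ := I.U g * lamI s * (I.U g)⁻¹

theorem pIso_apply (s : Γ) (g : G) (ξ : L2 Γ) :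
    I.pIso s g ξ = (I.u g * lam s * I.u g⁻¹) ξ := by
  rw [mulv, mulv, u_apply, u_apply, map_inv]
  rfl

theorem strictlyOuter (hΓ : ICC Γ) (hfree : I.Free) :
    IsStrictlyOuter (LG Γ) I.act (J G Γ) := by
  intro T hT hTpi
  -- matrix coefficients of `T`
  have hTcomm : ∀ S ∈ Set.centralizer (piOps (LG Γ) I.act (J G Γ) ∪ translationOps (J G Γ)), T * S = S * T := by
    intro S hS
    exact (hT S hS).symm
  -- operator `1 ⊗ ρ_s`
  have hrho : ∀ s : Γ, ∀ (ξ : L2 Γ) (g h : G),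
      (T (lp.single 2 h (rho s ξ))) g = rho s ((T (lp.single 2 h ξ)) g) := by
    intro s ξ g h
    let D : lp (fun _ : G => L2 Γ) 2 →L[ℂ] lp (fun _ : G => L2 Γ) 2 :=
      (mono (1 : Equiv.Perm G) (fun _ => rhoI s) : lp (fun _ : G => L2 Γ) 2 ≃ₗᵢ[ℂ] lp (fun _ : G => L2 Γ) 2)
    have hD : ∀ (η : lp (fun _ : G => L2 Γ) 2) (k : G), (D η) k = rho s (η k) := by
      intro η k; rfl
    have hDs : ∀ (k : G) (η : L2 Γ), D (lp.single 2 k η) = lp.single 2 k (rho s η) := by
      intro k η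
      ext1
      funext l
      rw [hD, lp.single_apply, lp.single_apply]
      by_cases hl : l = k
      · subst hl; simp
      · simp [Pi.single_eq_of_ne hl]
    have hDmem : D ∈ Set.centralizer (piOps (LG Γ) I.act (J G Γ) ∪ translationOps (J G Γ)) := by
      intro S hS
      refine clm_ext_single fun k η => ?_
      show S (D (lp.single 2 k η)) = D (S (lp.single 2 k η))
      rw [hDs]
      rcases hS with ⟨x, hxm, hx⟩ | ⟨l, hl⟩
      · have h1 : S (lp.single 2 k (rho s η)) = lp.single 2 k (I.act k⁻¹ x (rho s η)) := hx k _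
        have h2 : S (lp.single 2 k η) = lp.single 2 k (I.act k⁻¹ x η) := hx k _
        rw [h1, h2, hDs]
        congr 1
        exact LG_apply_rho (I.conj_mem hxm k⁻¹) s _
      · have h1 : S (lp.single 2 k (rho s η)) = lp.single 2 (l * k) (rho s η) := hl k _
        have h2 : S (lp.single 2 k η) = lp.single 2 (l * k) η := hl k _
        rw [h1, h2, hDs]
    have h1 := hTcomm D hDmem
    have h2 := congrArg (fun R => (R (lp.single 2 h ξ)) g) h1
    have h3 : D (lp.single 2 h ξ) = lp.single 2 h (rho s ξ) := hDs h ξ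
    simp only [mulv, hD, h3] at h2
    exact h2
  -- operators `R_k`
  have hR : ∀ (k : G) (ξ : L2 Γ) (g h : G),
      (T (lp.single 2 (h * k⁻¹) (I.u k ξ))) g = I.u k ((T (lp.single 2 h ξ)) (g * k)) := by
    intro k ξ g h
    let D : lp (fun _ : G => L2 Γ) 2 →L[ℂ] lp (fun _ : G => L2 Γ) 2 :=
      (mono (Equiv.mulRight k⁻¹) (fun _ => I.U k) : lp (fun _ : G => L2 Γ) 2 ≃ₗᵢ[ℂ] lp (fun _ : G => L2 Γ) 2)
    have hD : ∀ (η : lp (fun _ : G => L2 Γ) 2) (l : G), (D η) l = I.u k (η (l * k)) := by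
      intro η l
      show I.U k (η ((Equiv.mulRight k⁻¹).symm l)) = _
      simp [u_apply]
    have hDs : ∀ (l : G) (η : L2 Γ), D (lp.single 2 l η) = lp.single 2 (l * k⁻¹) (I.u k η) := by
      intro m η
      ext1
      funext l
      rw [hD, lp.single_apply, lp.single_apply]
      by_cases hk : l = m * k⁻¹
      · subst hk; simp
      · have hk' : l * k ≠ m := by
          intro h'; apply hk; rw [← h']; simp
        rw [Pi.single_eq_of_ne hk, Pi.single_eq_of_ne hk']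
        simp
    have hDmem : D ∈ Set.centralizer (piOps (LG Γ) I.act (J G Γ) ∪ translationOps (J G Γ)) := by
      intro S hS
      refine clm_ext_single fun l η => ?_
      show S (D (lp.single 2 l η)) = D (S (lp.single 2 l η))
      rw [hDs]
      rcases hS with ⟨x, hxm, hx⟩ | ⟨m, hm⟩
      · have h1 : S (lp.single 2 (l * k⁻¹) (I.u k η)) =
            lp.single 2 (l * k⁻¹) (I.act (l * k⁻¹)⁻¹ x (I.u k η)) := hx _ _
        have h2 : S (lp.single 2 l η) = lp.single 2 l (I.act l⁻¹ x η) := hx _ _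
        rw [h1, h2, hDs]
        congr 1
        show (I.u (l * k⁻¹)⁻¹ * x * I.u ((l * k⁻¹)⁻¹)⁻¹) (I.u k η) =
          I.u k ((I.u l⁻¹ * x * I.u (l⁻¹)⁻¹) η)
        simp only [← mulv]
        congr 1
        rw [inv_inv, inv_inv, mul_inv_rev, inv_inv, u_mul, u_mul]
        calc I.u k * I.u l⁻¹ * x * (I.u l * I.u k⁻¹) * I.u k
            = I.u k * I.u l⁻¹ * x * I.u l * (I.u k⁻¹ * I.u k) := by simp only [mul_assoc]
          _ = I.u k * I.u l⁻¹ * x * I.u l := by rw [u_inv_mul, mul_one]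
          _ = _ := by simp only [mul_assoc]
      · have h1 : S (lp.single 2 (l * k⁻¹) (I.u k η)) =
            lp.single 2 (m * (l * k⁻¹)) (I.u k η) := hm _ _
        have h2 : S (lp.single 2 l η) = lp.single 2 (m * l) η := hm _ _
        rw [h1, h2, hDs, mul_assoc]
    have h1 := hTcomm D hDmem
    have h2 := congrArg (fun R => (R (lp.single 2 h ξ)) g) h1
    have h3 : D (lp.single 2 h ξ) = lp.single 2 (h * k⁻¹) (I.u k ξ) := hDs h ξ
    simp only [mulv, hD, h3] at h2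
    exact h2
  -- operators `π(λ_s)`
  have hpi : ∀ (s : Γ) (ξ : L2 Γ) (g h : G),
      (T (lp.single 2 h ((I.u h⁻¹ * lam s * I.u h) ξ))) g =
        (I.u g⁻¹ * lam s * I.u g) ((T (lp.single 2 h ξ)) g) := by
    intro s ξ g h
    let D : lp (fun _ : G => L2 Γ) 2 →L[ℂ] lp (fun _ : G => L2 Γ) 2 :=
      (mono (1 : Equiv.Perm G) (fun g => I.pIso s g⁻¹) : lp (fun _ : G => L2 Γ) 2 ≃ₗᵢ[ℂ] lp (fun _ : G => L2 Γ) 2)
    have hD : ∀ (η : lp (fun _ : G => L2 Γ) 2) (k : G), (D η) k = (I.u k⁻¹ * lam s * I.u k) (η k) := by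
      intro η k
      show I.pIso s k⁻¹ (η k) = _
      rw [pIso_apply, inv_inv]
    have hDs : ∀ (l : G) (η : L2 Γ), D (lp.single 2 l η) =
        lp.single 2 l ((I.u l⁻¹ * lam s * I.u l) η) := by
      intro m η
      ext1
      funext k
      rw [hD, lp.single_apply, lp.single_apply]
      by_cases hk : k = m
      · subst hk; rw [Pi.single_eq_same, Pi.single_eq_same]
      · rw [Pi.single_eq_of_ne hk, Pi.single_eq_of_ne hk, map_zero]
    have hDmem : D ∈ piOps (LG Γ) I.act (J G Γ) := by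
      refine ⟨lam s, lam_mem s, ?_⟩
      intro k η
      rw [J_apply, J_apply, hDs]
      unfold act
      rw [inv_inv]
    have h1 := hTpi D hDmem
    have h2 := congrArg (fun R => (R (lp.single 2 h ξ)) g) h1
    have h3 : D (lp.single 2 h ξ) = lp.single 2 h ((I.u h⁻¹ * lam s * I.u h) ξ) := hDs h ξ
    rw [mulv, mulv, hD, h3] at h2
    exact h2
  -- the matrix coefficients as operators
  let ev : G → (lp (fun _ : G => L2 Γ) 2 →L[ℂ] L2 Γ) := fun g =>
    LinearMap.mkContinuous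
      { toFun := fun η => η g
        map_add' := fun _ _ => rfl
        map_smul' := fun _ _ => rfl } 1 (fun η => by
          rw [one_mul]; exact lp.norm_apply_le_norm (by norm_num) η g)
  let t : G → G → (L2 Γ →L[ℂ] L2 Γ) := fun g h =>
    (ev g).comp (T.comp (lp.singleContinuousLinearMap ℂ (fun _ : G => L2 Γ) 2 h))
  have ht : ∀ g h ξ, t g h ξ = (T (lp.single 2 h ξ)) g := fun g h ξ => rfl
  have htmem : ∀ g h, t g h ∈ LG Γ := by
    intro g h
    rw [mem_LG]
    intro s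
    ext1 ξ
    rw [mulv, mulv, ht, ht, hrho]
  -- conjugated coefficient
  have hconj : ∀ g h s, (I.u h * t g h * I.u h⁻¹) * lam s =
      (I.u (h * g⁻¹) * lam s * I.u (h * g⁻¹)⁻¹) * (I.u h * t g h * I.u h⁻¹) := by
    intro g h s
    have h1 : t g h * (I.u h⁻¹ * lam s * I.u h) = (I.u g⁻¹ * lam s * I.u g) * t g h := by
      ext1 ξ
      exact hpi s ξ g h
    calc (I.u h * t g h * I.u h⁻¹) * lam s
        = I.u h * t g h * I.u h⁻¹ * lam s * (I.u h * I.u h⁻¹) := by rw [u_mul_inv, mul_one]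
      _ = I.u h * (t g h * (I.u h⁻¹ * lam s * I.u h)) * I.u h⁻¹ := by simp only [mul_assoc]
      _ = I.u h * ((I.u g⁻¹ * lam s * I.u g) * t g h) * I.u h⁻¹ := by rw [h1]
      _ = I.u h * I.u g⁻¹ * lam s * I.u g * 1 * t g h * I.u h⁻¹ := by
          simp only [mul_assoc, one_mul]
      _ = I.u h * I.u g⁻¹ * lam s * I.u g * (I.u h⁻¹ * I.u h) * t g h * I.u h⁻¹ := by
          rw [u_inv_mul]
      _ = (I.u (h * g⁻¹) * lam s * I.u (h * g⁻¹)⁻¹) * (I.u h * t g h * I.u h⁻¹) := by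
          rw [mul_inv_rev, inv_inv, u_mul, u_mul]
          simp only [mul_assoc]
  have hback : ∀ g h, t g h = I.u h⁻¹ * (I.u h * t g h * I.u h⁻¹) * I.u h := by
    intro g h
    calc t g h = 1 * t g h * 1 := by simp
      _ = (I.u h⁻¹ * I.u h) * t g h * (I.u h⁻¹ * I.u h) := by rw [u_inv_mul]
      _ = _ := by simp only [mul_assoc]
  have hoff : ∀ g h, g ≠ h → t g h = 0 := by
    intro g h hgh
    have h1 : I.u h * t g h * I.u h⁻¹ = 0 := by
      refine hfree (h * g⁻¹) ?_ _ (I.conj_mem (htmem g h) h) (hconj g h)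
      intro h'
      exact hgh (mul_inv_eq_one.1 h').symm
    rw [hback, h1]; simp
  have hdiag : ∀ g, ∃ c : ℂ, t g g = c • (1 : L2 Γ →L[ℂ] L2 Γ) := by
    intro g
    have h1 := LG_scalar_of_commute_lam hΓ (I.conj_mem (htmem g g) g) (by
      intro s
      have := hconj g g s
      rw [mul_inv_cancel, inv_one, u_one] at this
      simpa using this)
    refine ⟨((I.u g * t g g * I.u g⁻¹) (dl 1)) 1, ?_⟩
    calc t g g = I.u g⁻¹ * (I.u g * t g g * I.u g⁻¹) * I.u g := hback g g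
      _ = I.u g⁻¹ * (((I.u g * t g g * I.u g⁻¹) (dl 1)) 1 • (1 : L2 Γ →L[ℂ] L2 Γ)) * I.u g := by
          rw [← h1]
      _ = _ := by rw [mul_smul_comm, smul_mul_assoc, mul_one, u_inv_mul]
  choose c hc using hdiag
  have hcc : ∀ g k, c g = c (g * k) := by
    intro g k
    have h1 := hR k (I.u k⁻¹ (dl 1)) g (g * k)
    have h2 : I.u k (I.u k⁻¹ (dl 1)) = dl 1 := by
      rw [← mulv, u_mul_inv]; rfl
    rw [h2, mul_inv_cancel_right, ← ht, ← ht, hc, hc] at h1
    have h3 : c g • (dl (1 : Γ)) = c (g * k) • dl (1 : Γ) := by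
      have h4 : I.u k ((c (g * k) • (1 : L2 Γ →L[ℂ] L2 Γ)) (I.u k⁻¹ (dl 1))) =
          c (g * k) • dl (1 : Γ) := by
        rw [smul_apply, map_smul]
        rw [show (1 : L2 Γ →L[ℂ] L2 Γ) (I.u k⁻¹ (dl 1)) = I.u k⁻¹ (dl 1) from rfl, h2]
      rw [← h4, ← h1]
      rfl
    have h5 := congrArg (fun ξ : L2 Γ => ξ 1) h3
    simpa [dl_apply] using h5
  refine ⟨c 1, ?_⟩
  refine clm_ext_single fun h ξ => ?_
  ext1
  funext g
  rw [← ht]
  have h6 : ((c 1 • (1 : lp (fun _ : G => L2 Γ) 2 →L[ℂ] lp (fun _ : G => L2 Γ) 2)) (lp.single 2 h ξ)) g =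
      c 1 • ((lp.single 2 h ξ : lp (fun _ : G => L2 Γ) 2) g) := rfl
  rw [h6, lp.single_apply]
  by_cases hgh : g = h
  · subst hgh
    rw [hc, Pi.single_eq_same, hcc 1 g, one_mul]
    rfl
  · rw [hoff g h hgh, Pi.single_eq_of_ne hgh, smul_zero]
    rfl

end Impl

end Pool.Agent.ErgCoc
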