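import Pool.Agent.Lib_MP_418a80_an.Tools

/-!
# Cocycle perturbations over the circle group (as a discrete group): automatic continuity
-/

set_option linter.unusedSectionVars false

namespace Pool.Agent.ErgCoc

open scoped ENNReal ComplexConjugate InnerProductSpace Topology
open Filter Classical

universe u v

/-- joint continuity -/
theorem cont_apply {E F : Type*} [NormedAddCommGroup E] [InnerProductSpace ℂ E]
    [NormedAddCommGroup F] [InnerProductSpace ℂ F] {X : Type v} [TopologicalSpace X]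
    {T : X → (E →L[ℂ] F)} {C : ℝ} (hC : ∀ x, ‖T x‖ ≤ C)
    (hT : ∀ ξ, Continuous fun x => T x ξ) {ξ : X → E} (hξ : Continuous ξ) :
    Continuous fun x => T x (ξ x) := by
  rw [continuous_iff_continuousAt]
  intro x0
  have h1 : Tendsto (fun x => T x (ξ x - ξ x0)) (𝓝 x0) (𝓝 0) := by
    have h2 : Tendsto (fun x => C * ‖ξ x - ξ x0‖) (𝓝 x0) (𝓝 0) := by
      have h3 : Tendsto (fun x => ‖ξ x - ξ x0‖) (𝓝 x0) (𝓝 0) :=
        tendsto_iff_norm_sub_tendsto_zero.1 hξ.continuousAt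
      simpa using h3.const_mul C
    refine squeeze_zero_norm (fun x => ?_) h2
    exact ((T x).le_opNorm _).trans (mul_le_mul_of_nonneg_right (hC x) (norm_nonneg _))
  have h2 : Tendsto (fun x => T x (ξ x0)) (𝓝 x0) (𝓝 (T x0 (ξ x0))) := (hT (ξ x0)).continuousAt
  have h3 := h1.add h2
  rw [zero_add] at h3
  refine h3.congr fun x => ?_
  rw [map_sub, sub_add_cancel]

/-- Data of a cocycle with ergodic perturbation, over the circle group. -/
structure CocData (Γ : Type u) [Group Γ] where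
  I : Impl Circle Γ
  hfix : ∀ t, I.u t (dl 1) = dl 1
  hcont : ∀ s, Continuous fun t => I.u t (dl s)
  V : Circle → (L2 Γ →L[ℂ] L2 Γ)
  hV : ∀ t, V t ∈ LG Γ
  hV1 : ∀ t, star (V t) * V t = 1
  hV2 : ∀ t, V t * star (V t) = 1
  hcoc : ∀ t s, V (t * s) = V t * (I.u t * V s * I.u t⁻¹)
  herg : ∀ x ∈ LG Γ, (∀ t, V t * (I.u t * x * I.u t⁻¹) * star (V t) = x) →
    ∃ c : ℂ, x = c • (1 : L2 Γ →L[ℂ] L2 Γ)

namespace CocData

variable {Γ : Type u} [Group Γ] (D : CocData Γ)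

theorem norm_le_one_of_isom {E : Type*} [NormedAddCommGroup E] [InnerProductSpace ℂ E]
    [CompleteSpace E] {T : E →L[ℂ] E} (h : star T * T = 1) : ‖T‖ ≤ 1 := by
  refine ContinuousLinearMap.opNorm_le_bound _ zero_le_one fun v => ?_
  rw [one_mul]
  exact le_of_eq ((ContinuousLinearMap.norm_map_iff_adjoint_comp_self T).2 h v)

theorem norm_V_apply (t : Circle) (ξ : L2 Γ) : ‖D.V t ξ‖ = ‖ξ‖ :=
  (ContinuousLinearMap.norm_map_iff_adjoint_comp_self (D.V t)).2 (D.hV1 t) ξ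

theorem norm_starV_apply (t : Circle) (ξ : L2 Γ) : ‖star (D.V t) ξ‖ = ‖ξ‖ := by
  refine (ContinuousLinearMap.norm_map_iff_adjoint_comp_self (star (D.V t))).2 ?_ ξ
  have := D.hV2 t
  rw [← ContinuousLinearMap.star_eq_adjoint, star_star]
  exact this

theorem norm_u_apply (t : Circle) (ξ : L2 Γ) : ‖D.I.u t ξ‖ = ‖ξ‖ :=
  (D.I.U t).norm_map ξ

theorem norm_V (t : Circle) : ‖D.V t‖ ≤ 1 := norm_le_one_of_isom (D.hV1 t)

theorem norm_u (t : Circle) : ‖D.I.u t‖ ≤ 1 := by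
  refine norm_le_one_of_isom ?_
  rw [Impl.star_u, Impl.u_inv_mul]

theorem cont_u (ξ : L2 Γ) : Continuous fun t => D.I.u t ξ :=
  continuous_of_dl _ 1 D.norm_u D.hcont ξ

theorem cont_u_inv (ξ : L2 Γ) : Continuous fun t => D.I.u t⁻¹ ξ :=
  (D.cont_u ξ).comp continuous_inv

/-- `‖x y δ‖ ≤ ‖y‖ ‖x δ‖` -/
theorem two_norm_mul_right {x y : L2 Γ →L[ℂ] L2 Γ} (hx : x ∈ LG Γ) (hy : y ∈ LG Γ) :
    ‖(x * y) (dl 1)‖ ≤ ‖y‖ * ‖x (dl 1)‖ := by
  rw [← LG_norm_star (mul_mem hx hy), star_mul, mulv, ← LG_norm_star hx, ← norm_star y]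
  exact (star y).le_opNorm _

theorem two_norm_mul_left {x y : L2 Γ →L[ℂ] L2 Γ} :
    ‖(x * y) (dl 1)‖ ≤ ‖x‖ * ‖y (dl 1)‖ := x.le_opNorm _

/-- right multiplication by `V_t^*` preserves the 2-norm -/
theorem two_norm_mul_starV {x : L2 Γ →L[ℂ] L2 Γ} (hx : x ∈ LG Γ) (t : Circle) :
    ‖(x * star (D.V t)) (dl 1)‖ = ‖x (dl 1)‖ := by
  rw [← LG_norm_star (mul_mem hx (star_mem (D.hV t))), star_mul, star_star, mulv, D.norm_V_apply,
    LG_norm_star hx]

/-- the unitary representation `W_t = V_t u_t` -/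
noncomputable def W (t : Circle) : L2 Γ →L[ℂ] L2 Γ := D.V t * D.I.u t

theorem star_W (t : Circle) : star (D.W t) = D.I.u t⁻¹ * star (D.V t) := by
  unfold W; rw [star_mul, Impl.star_u]

theorem W_mul (t s : Circle) : D.W (t * s) = D.W t * D.W s := by
  unfold W
  rw [D.hcoc, Impl.u_mul]
  calc D.V t * (D.I.u t * D.V s * D.I.u t⁻¹) * (D.I.u t * D.I.u s)
      = D.V t * D.I.u t * D.V s * (D.I.u t⁻¹ * D.I.u t) * D.I.u s := by simp only [mul_assoc]
    _ = _ := by rw [Impl.u_inv_mul]; simp only [mul_assoc, mul_one]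

theorem star_W_mul (t : Circle) : star (D.W t) * D.W t = 1 := by
  rw [star_W]; unfold W
  calc D.I.u t⁻¹ * star (D.V t) * (D.V t * D.I.u t)
      = D.I.u t⁻¹ * (star (D.V t) * D.V t) * D.I.u t := by simp only [mul_assoc]
    _ = 1 := by rw [D.hV1, mul_one, Impl.u_inv_mul]

theorem W_mul_star (t : Circle) : D.W t * star (D.W t) = 1 := by
  rw [star_W]; unfold W
  calc D.V t * D.I.u t * (D.I.u t⁻¹ * star (D.V t))
      = D.V t * (D.I.u t * D.I.u t⁻¹) * star (D.V t) := by simp only [mul_assoc]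
    _ = 1 := by rw [Impl.u_mul_inv, mul_one, D.hV2]

/-- the perturbed action -/
noncomputable def β (t : Circle) (x : L2 Γ →L[ℂ] L2 Γ) : L2 Γ →L[ℂ] L2 Γ :=
  D.W t * x * star (D.W t)

theorem β_eq (t : Circle) (x : L2 Γ →L[ℂ] L2 Γ) :
    D.β t x = D.V t * (D.I.u t * x * D.I.u t⁻¹) * star (D.V t) := by
  unfold β; rw [star_W]; unfold W; simp only [mul_assoc]

theorem β_mem {x : L2 Γ →L[ℂ] L2 Γ} (hx : x ∈ LG Γ) (t : Circle) : D.β t x ∈ LG Γ := by
  rw [β_eq]
  exact mul_mem (mul_mem (D.hV t) (D.I.conj_mem hx t)) (star_mem (D.hV t))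

theorem β_comp (t s : Circle) (x : L2 Γ →L[ℂ] L2 Γ) : D.β t (D.β s x) = D.β (t * s) x := by
  unfold β; rw [W_mul, star_mul]; simp only [mul_assoc]

theorem β_mul (t : Circle) (x y : L2 Γ →L[ℂ] L2 Γ) : D.β t (x * y) = D.β t x * D.β t y := by
  unfold β
  calc D.W t * (x * y) * star (D.W t) = D.W t * x * 1 * y * star (D.W t) := by
        simp only [mul_assoc, one_mul]
    _ = D.W t * x * (star (D.W t) * D.W t) * y * star (D.W t) := by rw [star_W_mul]
    _ = _ := by simp only [mul_assoc]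

theorem β_one (t : Circle) : D.β t 1 = 1 := by
  unfold β; rw [mul_one, W_mul_star]

theorem β_sub (t : Circle) (x y : L2 Γ →L[ℂ] L2 Γ) : D.β t (x - y) = D.β t x - D.β t y := by
  unfold β; rw [mul_sub, sub_mul]

theorem β_smul (t : Circle) (c : ℂ) (x : L2 Γ →L[ℂ] L2 Γ) : D.β t (c • x) = c • D.β t x := by
  unfold β; rw [mul_smul_comm, smul_mul_assoc]

theorem β_star (t : Circle) (x : L2 Γ →L[ℂ] L2 Γ) : D.β t (star x) = star (D.β t x) := by
  unfold β; rw [star_mul, star_mul, star_star, mul_assoc]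

theorem norm_W (t : Circle) : ‖D.W t‖ ≤ 1 := norm_le_one_of_isom (D.star_W_mul t)

theorem norm_starW (t : Circle) : ‖star (D.W t)‖ ≤ 1 :=
  (norm_star (D.W t)).le.trans (D.norm_W t)

theorem norm_β (t : Circle) (x : L2 Γ →L[ℂ] L2 Γ) : ‖D.β t x‖ ≤ ‖x‖ := by
  unfold β
  calc ‖D.W t * x * star (D.W t)‖ ≤ ‖D.W t * x‖ * ‖star (D.W t)‖ := norm_mul_le _ _
    _ ≤ (‖D.W t‖ * ‖x‖) * ‖star (D.W t)‖ := by gcongr; exact norm_mul_le _ _
    _ ≤ (1 * ‖x‖) * 1 := by
        gcongr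
        · exact D.norm_W t
        · exact D.norm_starW t
    _ = ‖x‖ := by ring

theorem two_norm_conj (t : Circle) (x : L2 Γ →L[ℂ] L2 Γ) :
    ‖(D.I.u t * x * D.I.u t⁻¹) (dl 1)‖ = ‖x (dl 1)‖ := by
  rw [mulv, mulv, D.hfix, D.norm_u_apply]

theorem two_norm_β {x : L2 Γ →L[ℂ] L2 Γ} (hx : x ∈ LG Γ) (t : Circle) :
    ‖(D.β t x) (dl 1)‖ = ‖x (dl 1)‖ := by
  rw [β_eq, D.two_norm_mul_starV (mul_mem (D.hV t) (D.I.conj_mem hx t)), mulv, D.norm_V_apply,
    D.two_norm_conj]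

/-- the overlap `|τ(V_t)|` -/
noncomputable def ov (t : Circle) : ℝ := ‖⟪D.V t (dl 1), dl 1⟫_ℂ‖

theorem isClosed_ov (c : ℝ) : IsClosed {t | c ≤ D.ov t} := by
  rw [isClosed_iff_ultrafilter]
  intro t0 F hF hA
  obtain ⟨y, hy1, hy⟩ := exists_wot_limit F D.V D.norm_V
  -- `y ∈ L(Γ)`
  have hymem : y ∈ LG Γ := by
    rw [mem_LG]
    intro g
    ext1 v
    refine ext_inner_right ℂ fun w => ?_
    rw [mulv, mulv]
    have h1 := hy v (star (rho g) w)
    have h2 := hy (rho g v) w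
    rw [ContinuousLinearMap.star_eq_adjoint, ContinuousLinearMap.adjoint_inner_right] at h1
    refine tendsto_nhds_unique h1 (h2.congr fun t => ?_)
    rw [ContinuousLinearMap.adjoint_inner_right, LG_apply_rho (D.hV t)]
  -- the commutation relation
  have hrel : ∀ g, y * (D.I.u t0 * D.V g * D.I.u t0⁻¹) = D.V g * (D.I.u g * y * D.I.u g⁻¹) := by
    intro g
    ext1 v
    refine ext_inner_right ℂ fun w => ?_
    have hcont : Continuous fun t => (D.I.u t * D.V g * D.I.u t⁻¹) v := by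
      have h1 : Continuous fun t => D.V g (D.I.u t⁻¹ v) := (D.V g).continuous.comp (D.cont_u_inv v)
      exact cont_apply D.norm_u D.cont_u h1
    have h1 := hy ((D.I.u t0 * D.V g * D.I.u t0⁻¹) v) w
    have h2 : Tendsto (fun t => ⟪D.V t ((D.I.u t * D.V g * D.I.u t⁻¹) v -
        (D.I.u t0 * D.V g * D.I.u t0⁻¹) v), w⟫_ℂ) (F : Filter Circle) (𝓝 0) := by
      have h3 : Tendsto (fun t => ‖(D.I.u t * D.V g * D.I.u t⁻¹) v -
        (D.I.u t0 * D.V g * D.I.u t0⁻¹) v‖ * ‖w‖) (F : Filter Circle) (𝓝 0) := by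
        have h4 := (tendsto_iff_norm_sub_tendsto_zero.1 hcont.continuousAt).mono_left hF
        simpa using h4.mul_const ‖w‖
      refine squeeze_zero_norm (fun t => ?_) h3
      refine (norm_inner_le_norm _ _).trans ?_
      rw [D.norm_V_apply]
    have h3 := h1.add h2
    rw [add_zero] at h3
    have h4 : Tendsto (fun t => ⟪D.V t (D.I.u g⁻¹ v), D.I.u g⁻¹ (star (D.V g) w)⟫_ℂ)
        (F : Filter Circle) (𝓝 ⟪y (D.I.u g⁻¹ v), D.I.u g⁻¹ (star (D.V g) w)⟫_ℂ) := hy _ _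
    have h5 : ⟪(D.V g * (D.I.u g * y * D.I.u g⁻¹)) v, w⟫_ℂ =
        ⟪y (D.I.u g⁻¹ v), D.I.u g⁻¹ (star (D.V g) w)⟫_ℂ := by
      rw [← Impl.star_u, ContinuousLinearMap.star_eq_adjoint, ContinuousLinearMap.star_eq_adjoint,
        ContinuousLinearMap.adjoint_inner_right, ContinuousLinearMap.adjoint_inner_right]
      rfl
    rw [h5, mulv]
    refine tendsto_nhds_unique h3 (h4.congr fun t => ?_)
    rw [← inner_add_left, ← map_add, add_sub_cancel, ← Impl.star_u,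
      ContinuousLinearMap.star_eq_adjoint, ContinuousLinearMap.star_eq_adjoint,
      ContinuousLinearMap.adjoint_inner_right, ContinuousLinearMap.adjoint_inner_right]
    congr 1
    have h6 : D.V t * (D.I.u t * D.V g * D.I.u t⁻¹) = D.V g * (D.I.u g * D.V t * D.I.u g⁻¹) := by
      rw [← D.hcoc, ← D.hcoc, mul_comm]
    have h7 := congrArg (fun T => T v) h6
    rw [← ContinuousLinearMap.star_eq_adjoint, Impl.star_u]
    exact h7.symm
  -- hence `y V_{t0}^*` is fixed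
  obtain ⟨c', hc'⟩ := D.herg (y * star (D.V t0)) (mul_mem hymem (star_mem (D.hV t0))) (by
    intro g
    have h1 : D.V g * (D.I.u g * D.V t0 * D.I.u g⁻¹) = D.V t0 * (D.I.u t0 * D.V g * D.I.u t0⁻¹) := by
      rw [← D.hcoc, ← D.hcoc, mul_comm]
    have h2 : (D.I.u g * star (D.V t0) * D.I.u g⁻¹) * star (D.V g) =
        star (D.V g * (D.I.u g * D.V t0 * D.I.u g⁻¹)) := by
      rw [star_mul, star_mul, star_mul, Impl.star_u, Impl.star_u, inv_inv]
      simp only [mul_assoc]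
    calc D.V g * (D.I.u g * (y * star (D.V t0)) * D.I.u g⁻¹) * star (D.V g)
        = D.V g * D.I.u g * y * 1 * star (D.V t0) * D.I.u g⁻¹ * star (D.V g) := by
          simp only [mul_assoc, one_mul]
      _ = D.V g * D.I.u g * y * (D.I.u g⁻¹ * D.I.u g) * star (D.V t0) * D.I.u g⁻¹ *
            star (D.V g) := by rw [Impl.u_inv_mul]
      _ = (D.V g * (D.I.u g * y * D.I.u g⁻¹)) *
            ((D.I.u g * star (D.V t0) * D.I.u g⁻¹) * star (D.V g)) := by simp only [mul_assoc]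
      _ = (y * (D.I.u t0 * D.V g * D.I.u t0⁻¹)) *
            star (D.V t0 * (D.I.u t0 * D.V g * D.I.u t0⁻¹)) := by rw [← hrel, h2, h1]
      _ = y * ((D.I.u t0 * D.V g * D.I.u t0⁻¹) * star (D.I.u t0 * D.V g * D.I.u t0⁻¹)) *
            star (D.V t0) := by rw [star_mul (D.V t0)]; simp only [mul_assoc]
      _ = y * star (D.V t0) := by
          have h3 : (D.I.u t0 * D.V g * D.I.u t0⁻¹) * star (D.I.u t0 * D.V g * D.I.u t0⁻¹) = 1 := by
            rw [star_mul, star_mul, Impl.star_u, Impl.star_u, inv_inv]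
            calc D.I.u t0 * D.V g * D.I.u t0⁻¹ * (D.I.u t0 * (star (D.V g) * D.I.u t0⁻¹))
                = D.I.u t0 * D.V g * (D.I.u t0⁻¹ * D.I.u t0) * star (D.V g) * D.I.u t0⁻¹ := by
                  simp only [mul_assoc]
              _ = D.I.u t0 * (D.V g * star (D.V g)) * D.I.u t0⁻¹ := by
                  rw [Impl.u_inv_mul]; simp only [mul_assoc, one_mul]
              _ = 1 := by rw [D.hV2, mul_one, Impl.u_mul_inv]
          rw [h3, mul_one])
  have hyV : y = c' • D.V t0 := by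
    calc y = y * (star (D.V t0) * D.V t0) := by rw [D.hV1, mul_one]
      _ = (c' • (1 : L2 Γ →L[ℂ] L2 Γ)) * D.V t0 := by rw [← mul_assoc, hc']
      _ = c' • D.V t0 := by rw [smul_mul_assoc, one_mul]
  have hc1 : ‖c'‖ ≤ 1 := by
    have h1 : ‖y (dl 1)‖ ≤ 1 := by
      refine (y.le_opNorm _).trans ?_
      rw [norm_dl, mul_one]; exact hy1
    rw [hyV, smul_apply, norm_smul, D.norm_V_apply, norm_dl, mul_one] at h1
    exact h1
  have hlim : Tendsto (fun t => D.ov t) (F : Filter Circle) (𝓝 ‖⟪y (dl 1), dl 1⟫_ℂ‖) :=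
    (hy (dl 1) (dl 1)).norm
  have hge : c ≤ ‖⟪y (dl 1), dl 1⟫_ℂ‖ := ge_of_tendsto hlim hA
  have h2 : ‖⟪y (dl 1), dl 1⟫_ℂ‖ = ‖c'‖ * D.ov t0 := by
    rw [hyV, smul_apply, inner_smul_left, norm_mul, RCLike.norm_conj]; rfl
  show c ≤ D.ov t0
  calc c ≤ ‖c'‖ * D.ov t0 := by rw [← h2]; exact hge
    _ ≤ 1 * D.ov t0 := by
        gcongr
        exact norm_nonneg _
    _ = D.ov t0 := one_mul _

end CocData

end Pool.Agent.ErgCoc
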