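import Pool.Agent.Lib_MP_418a80_an.CircleA

/-!
# Cocycle perturbations over the circle group: continuity of the perturbed action
-/

set_option linter.unusedSectionVars false

namespace Pool.Agent.ErgCoc

open scoped ENNReal ComplexConjugate InnerProductSpace Topology
open Filter Classical

universe u v

namespace CocData

variable {Γ : Type u} [Group Γ] (D : CocData Γ)

/-- `V_t` is close to a scalar in 2-norm. -/
def Near (ε : ℝ) (t : Circle) : Prop :=
  ∃ z : ℂ, ‖z‖ ≤ 1 ∧ ‖D.V t (dl 1) - z • dl 1‖ ≤ ε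

theorem ov_le_one (t : Circle) : D.ov t ≤ 1 := by
  unfold ov
  refine (norm_inner_le_norm _ _).trans ?_
  rw [D.norm_V_apply, norm_dl, one_mul]

theorem near_of_ov {c : ℝ} {t : Circle} (h : c ≤ D.ov t) (hc : 0 ≤ c) :
    D.Near (Real.sqrt (1 - c ^ 2)) t := by
  refine ⟨⟪dl 1, D.V t (dl 1)⟫_ℂ, ?_, ?_⟩
  · refine (norm_inner_le_norm _ _).trans ?_
    rw [D.norm_V_apply, norm_dl, one_mul]
  · apply Real.le_sqrt_of_sq_le
    set z := ⟪dl 1, D.V t (dl 1)⟫_ℂ with hz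
    have h1 : ‖D.V t (dl 1) - z • dl 1‖ ^ 2 = 1 - ‖z‖ ^ 2 := by
      rw [@norm_sub_sq ℂ, D.norm_V_apply, norm_dl, norm_smul, norm_dl, inner_smul_right,
        ← inner_conj_symm (D.V t (dl 1)) (dl 1), ← hz]
      have h2 : RCLike.re (z * conj z) = ‖z‖ ^ 2 := by
        rw [RCLike.mul_conj]
        norm_cast
      rw [h2]; ring
    rw [h1]
    have h3 : ‖z‖ = D.ov t := by
      unfold ov
      rw [hz, norm_inner_symm]
    rw [h3]
    have h4 : c ^ 2 ≤ D.ov t ^ 2 := by gcongr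
    linarith

theorem near_of_mul {ε ε' : ℝ} {p r : Circle} (hp : D.Near ε p) (hpr : D.Near ε' (p * r)) :
    D.Near (ε + ε') r := by
  obtain ⟨a, ha, ha'⟩ := hp
  obtain ⟨b, hb, hb'⟩ := hpr
  refine ⟨conj a * b, ?_, ?_⟩
  · rw [norm_mul, RCLike.norm_conj]
    calc ‖a‖ * ‖b‖ ≤ 1 * 1 := by gcongr
      _ = 1 := one_mul _
  · have h1 : D.I.u p * D.V r * D.I.u p⁻¹ = star (D.V p) * D.V (p * r) := by
      rw [D.hcoc, ← mul_assoc (star (D.V p)), D.hV1, one_mul]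
    have h2 : D.I.u p (D.V r (dl 1)) = star (D.V p) (D.V (p * r) (dl 1)) := by
      have := congrArg (fun T => T (dl 1)) h1
      simp only [mulv, D.hfix] at this
      exact this
    have h3 : ‖D.V r (dl 1) - (conj a * b) • dl 1‖ =
        ‖star (D.V p) (D.V (p * r) (dl 1)) - (conj a * b) • dl 1‖ := by
      rw [← D.norm_u_apply p (D.V r (dl 1) - (conj a * b) • dl 1), map_sub, h2, map_smul, D.hfix]
    rw [h3]
    have h4 : star (D.V p) (D.V (p * r) (dl 1)) - (conj a * b) • dl 1 =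
        star (D.V p) (D.V (p * r) (dl 1) - b • dl 1) +
          b • (star (D.V p - a • 1) (dl 1)) := by
      rw [map_sub, map_smul, star_sub, star_smul, star_one, sub_apply, smul_apply, smul_sub,
        smul_smul]
      rw [show (1 : L2 Γ →L[ℂ] L2 Γ) (dl 1) = dl 1 from rfl]
      rw [show (star a : ℂ) = conj a from rfl, mul_comm b]
      abel
    rw [h4]
    have h5 : D.V p - a • (1 : L2 Γ →L[ℂ] L2 Γ) ∈ LG Γ :=
      sub_mem (D.hV p) ((LG Γ).toStarSubalgebra.smul_mem (one_mem (LG Γ)) _)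
    calc ‖star (D.V p) (D.V (p * r) (dl 1) - b • dl 1) + b • (star (D.V p - a • 1) (dl 1))‖
        ≤ ‖star (D.V p) (D.V (p * r) (dl 1) - b • dl 1)‖ + ‖b • (star (D.V p - a • 1) (dl 1))‖ :=
          norm_add_le _ _
      _ = ‖D.V (p * r) (dl 1) - b • dl 1‖ + ‖b‖ * ‖(D.V p - a • 1) (dl 1)‖ := by
          rw [D.norm_starV_apply, norm_smul, LG_norm_star h5]
      _ ≤ ε' + 1 * ε := by
          gcongr
          exact ha'
      _ = ε + ε' := by ring

/-- Baire category argument: `V_r` is close to the scalars for `r` close to `1`. -/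
theorem eventually_near [Countable Γ] {ε : ℝ} (hε : 0 < ε) : ∀ᶠ r in 𝓝 (1 : Circle), D.Near ε r := by
  have := separableSpace_L2 Γ
  have : SecondCountableTopology (L2 Γ) := UniformSpace.secondCountable_of_separable _
  -- choose `c < 1` with `√(1-c²) ≤ ε/2`
  obtain ⟨c, hc0, hc1, hcε⟩ : ∃ c : ℝ, 0 ≤ c ∧ c < 1 ∧ Real.sqrt (1 - c ^ 2) ≤ ε / 2 := by
    have hcont : Tendsto (fun c : ℝ => Real.sqrt (1 - c ^ 2)) (𝓝[<] 1) (𝓝 0) := by
      have : ContinuousAt (fun c : ℝ => Real.sqrt (1 - c ^ 2)) 1 := by fun_prop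
      have h2 := this.tendsto
      simp only [one_pow, sub_self, Real.sqrt_zero] at h2
      exact h2.mono_left nhdsWithin_le_nhds
    have h1 : ∀ᶠ c in 𝓝[<] (1 : ℝ), Real.sqrt (1 - c ^ 2) < ε / 2 :=
      hcont.eventually (gt_mem_nhds (by positivity))
    have h2 : ∀ᶠ c in 𝓝[<] (1 : ℝ), (0 : ℝ) < c :=
      (eventually_gt_nhds zero_lt_one).filter_mono nhdsWithin_le_nhds
    have h3 : ∀ᶠ c in 𝓝[<] (1 : ℝ), c < 1 := eventually_mem_nhdsWithin
    obtain ⟨c, h4, h5, h6⟩ := (h1.and (h2.and h3)).exists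
    exact ⟨c, h5.le, h6, h4.le⟩
  -- a countable set of translates of `A = {t | c ≤ ov t}` covers the circle
  let A : Set Circle := {t | c ≤ D.ov t}
  obtain ⟨S, hScount, hSdense⟩ :=
    TopologicalSpace.exists_countable_dense (Set.range fun t => D.V t (dl 1))
  -- pick preimages
  have hpre : ∀ y : Set.range (fun t => D.V t (dl 1)), ∃ t : Circle, D.V t (dl 1) = y := by
    rintro ⟨_, t, rfl⟩; exact ⟨t, rfl⟩
  choose pre hpre using hpre
  have : Countable S := hScount.to_subtype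
  have hcover : (⋃ y : S, {t : Circle | (pre y)⁻¹ * t ∈ A}) = Set.univ := by
    rw [Set.eq_univ_iff_forall]
    intro t
    have hδ : 0 < Real.sqrt (2 * (1 - c)) := Real.sqrt_pos.2 (by linarith)
    obtain ⟨y, hyS, hy⟩ := hSdense.exists_dist_lt
      (⟨D.V t (dl 1), t, rfl⟩ : Set.range fun t => D.V t (dl 1)) hδ
    rw [Set.mem_iUnion]
    refine ⟨⟨y, hyS⟩, ?_⟩
    show c ≤ D.ov ((pre y)⁻¹ * t)
    set q := pre y with hq
    have h1 : dist (D.V t (dl 1)) (D.V q (dl 1)) < Real.sqrt (2 * (1 - c)) := by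
      have h2 : D.V q (dl 1) = (y : L2 Γ) := hpre y
      rw [h2]
      exact hy
    have h2 : D.I.u q * D.V (q⁻¹ * t) * D.I.u q⁻¹ = star (D.V q) * D.V t := by
      have h3 := D.hcoc q (q⁻¹ * t)
      rw [mul_inv_cancel_left] at h3
      rw [h3, ← mul_assoc (star (D.V q)), D.hV1, one_mul]
    have h3 : D.I.u q (D.V (q⁻¹ * t) (dl 1)) = star (D.V q) (D.V t (dl 1)) := by
      have := congrArg (fun T => T (dl 1)) h2
      simp only [mulv, D.hfix] at this
      exact this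
    have h4 : D.ov (q⁻¹ * t) = ‖⟪D.V t (dl 1), D.V q (dl 1)⟫_ℂ‖ := by
      unfold ov
      rw [← (D.I.U q).inner_map_map (D.V (q⁻¹ * t) (dl 1)) (dl 1)]
      have h5 : D.I.U q (D.V (q⁻¹ * t) (dl 1)) = star (D.V q) (D.V t (dl 1)) := h3
      have h6 : D.I.U q (dl 1) = dl 1 := D.hfix q
      rw [h5, h6, ContinuousLinearMap.star_eq_adjoint, ContinuousLinearMap.adjoint_inner_left]
    rw [h4]
    have h5 : ‖D.V t (dl 1) - D.V q (dl 1)‖ ^ 2 < 2 * (1 - c) := by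
      rw [← dist_eq_norm]
      have h6 := Real.sq_sqrt (show (0:ℝ) ≤ 2 * (1 - c) by linarith)
      rw [← h6]
      gcongr
    rw [@norm_sub_sq ℂ, D.norm_V_apply, D.norm_V_apply, norm_dl] at h5
    have h6 : RCLike.re ⟪D.V t (dl 1), D.V q (dl 1)⟫_ℂ ≤ ‖⟪D.V t (dl 1), D.V q (dl 1)⟫_ℂ‖ :=
      RCLike.re_le_norm _
    linarith
  have : Nonempty Circle := ⟨1⟩
  obtain ⟨y, hy⟩ := nonempty_interior_of_iUnion_of_closed (fun y : S =>
    (D.isClosed_ov c).preimage (continuous_const.mul continuous_id :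
      Continuous fun t => (pre y)⁻¹ * t)) hcover
  obtain ⟨a, ha⟩ := hy
  -- `p = q⁻¹ a`
  have hopen : interior {t : Circle | (pre y)⁻¹ * t ∈ A} ∈ 𝓝 (a * 1) := by
    rw [mul_one]; exact isOpen_interior.mem_nhds ha
  have hcont : Tendsto (fun r : Circle => a * r) (𝓝 1) (𝓝 (a * 1)) :=
    (continuous_const.mul continuous_id).continuousAt
  have hap0 : a ∈ {t : Circle | (pre y)⁻¹ * t ∈ A} := interior_subset ha
  have hap : (pre y)⁻¹ * a ∈ A := hap0
  filter_upwards [hcont hopen] with r hr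
  have hr0 : a * r ∈ {t : Circle | (pre y)⁻¹ * t ∈ A} := interior_subset hr
  have hr' : (pre y)⁻¹ * (a * r) ∈ A := hr0
  rw [← mul_assoc] at hr'
  have h1 := D.near_of_ov hap hc0
  have h2 := D.near_of_ov hr' hc0
  obtain ⟨z, hz, hz'⟩ := D.near_of_mul h1 h2
  exact ⟨z, hz, hz'.trans (by linarith)⟩

theorem tendsto_β_one [Countable Γ] {x : L2 Γ →L[ℂ] L2 Γ} (hx : x ∈ LG Γ) :
    Tendsto (fun r => D.β r x (dl 1)) (𝓝 1) (𝓝 (x (dl 1))) := by
  -- first compare with the unperturbed action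
  have h1 : Tendsto (fun r => D.β r x (dl 1) - (D.I.u r * x * D.I.u r⁻¹) (dl 1)) (𝓝 1) (𝓝 0) := by
    rw [Metric.tendsto_nhds]
    intro δ hδ
    have hε : 0 < δ / (2 * ‖x‖ + 1) := by positivity
    filter_upwards [D.eventually_near hε] with r hr
    obtain ⟨z, hz, hz'⟩ := hr
    rw [dist_zero_right]
    set a := D.I.u r * x * D.I.u r⁻¹ with ha
    have hamem : a ∈ LG Γ := D.I.conj_mem hx r
    have hanorm : ‖a‖ ≤ ‖x‖ := by
      rw [ha]
      calc ‖D.I.u r * x * D.I.u r⁻¹‖ ≤ ‖D.I.u r * x‖ * ‖D.I.u r⁻¹‖ := norm_mul_le _ _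
        _ ≤ (‖D.I.u r‖ * ‖x‖) * ‖D.I.u r⁻¹‖ := by gcongr; exact norm_mul_le _ _
        _ ≤ (1 * ‖x‖) * 1 := by
            gcongr
            · exact D.norm_u r
            · exact D.norm_u r⁻¹
        _ = ‖x‖ := by ring
    have h2 : D.β r x (dl 1) - a (dl 1) = ((D.V r * a - a * D.V r) * star (D.V r)) (dl 1) := by
      rw [β_eq, ← ha, sub_mul, mul_assoc a, D.hV2, mul_one]; rfl
    rw [h2, D.two_norm_mul_starV (sub_mem (mul_mem (D.hV r) hamem) (mul_mem hamem (D.hV r)))]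
    have h3 : D.V r * a - a * D.V r = (D.V r - z • 1) * a - a * (D.V r - z • 1) := by
      rw [sub_mul, mul_sub, smul_mul_assoc, one_mul, mul_smul_comm, mul_one]; abel
    have h4 : D.V r - z • (1 : L2 Γ →L[ℂ] L2 Γ) ∈ LG Γ :=
      sub_mem (D.hV r) ((LG Γ).toStarSubalgebra.smul_mem (one_mem (LG Γ)) _)
    have h5 : ‖(D.V r - z • (1 : L2 Γ →L[ℂ] L2 Γ)) (dl 1)‖ ≤ δ / (2 * ‖x‖ + 1) := hz'
    rw [h3, sub_apply]
    calc ‖((D.V r - z • 1) * a) (dl 1) - (a * (D.V r - z • 1)) (dl 1)‖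
        ≤ ‖((D.V r - z • 1) * a) (dl 1)‖ + ‖(a * (D.V r - z • 1)) (dl 1)‖ := norm_sub_le _ _
      _ ≤ ‖a‖ * ‖(D.V r - z • (1 : L2 Γ →L[ℂ] L2 Γ)) (dl 1)‖ +
            ‖a‖ * ‖(D.V r - z • (1 : L2 Γ →L[ℂ] L2 Γ)) (dl 1)‖ := by
          gcongr
          · exact two_norm_mul_right h4 hamem
          · exact two_norm_mul_left
      _ ≤ ‖x‖ * (δ / (2 * ‖x‖ + 1)) + ‖x‖ * (δ / (2 * ‖x‖ + 1)) := by gcongr
      _ = δ * ((2 * ‖x‖) / (2 * ‖x‖ + 1)) := by ring
      _ < δ * 1 := by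
          gcongr
          rw [div_lt_one (by positivity)]
          linarith
      _ = δ := mul_one _
  have h2 : Tendsto (fun r => (D.I.u r * x * D.I.u r⁻¹) (dl 1)) (𝓝 1) (𝓝 (x (dl 1))) := by
    have h3 := (D.cont_u (x (dl 1))).continuousAt (x := 1)
    have h4 : Tendsto (fun r => D.I.u r (x (dl 1))) (𝓝 1) (𝓝 (D.I.u 1 (x (dl 1)))) := h3
    rw [Impl.u_one] at h4
    refine h4.congr fun r => ?_
    rw [mulv, mulv, D.hfix]
  have h3 := h1.add h2
  rw [zero_add] at h3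
  refine h3.congr fun r => ?_
  rw [sub_add_cancel]

theorem continuous_β_one [Countable Γ] {x : L2 Γ →L[ℂ] L2 Γ} (hx : x ∈ LG Γ) :
    Continuous fun t => D.β t x (dl 1) := by
  rw [continuous_iff_continuousAt]
  intro t0
  have h1 : Tendsto (fun t => t0⁻¹ * t) (𝓝 t0) (𝓝 1) := by
    have : ContinuousAt (fun t => t0⁻¹ * t) t0 := by fun_prop
    have h2 := this.tendsto
    rwa [inv_mul_cancel] at h2
  have h2 := (D.tendsto_β_one hx).comp h1
  rw [tendsto_iff_norm_sub_tendsto_zero] at h2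
  show Tendsto _ _ _
  rw [tendsto_iff_norm_sub_tendsto_zero]
  refine h2.congr fun t => ?_
  show ‖D.β (t0⁻¹ * t) x (dl 1) - x (dl 1)‖ = ‖D.β t x (dl 1) - D.β t0 x (dl 1)‖
  have h3 : D.β t x = D.β t0 (D.β (t0⁻¹ * t) x) := by
    rw [β_comp, mul_inv_cancel_left]
  rw [h3, ← sub_apply, ← sub_apply, ← β_sub, D.two_norm_β (sub_mem (D.β_mem hx _) hx)]

theorem continuous_β [Countable Γ] {x : L2 Γ →L[ℂ] L2 Γ} (hx : x ∈ LG Γ) (ξ : L2 Γ) :
    Continuous fun t => D.β t x ξ := by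
  refine continuous_of_dl _ ‖x‖ (fun t => D.norm_β t x) (fun s => ?_) ξ
  have h1 : (fun t => D.β t x (dl s)) = fun t => rho s⁻¹ (D.β t x (dl 1)) := by
    funext t
    exact LG_dl (D.β_mem hx t) s
  rw [h1]
  exact (rho s⁻¹).continuous.comp (D.continuous_β_one hx)

end CocData

end Pool.Agent.ErgCoc
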