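import Pool.Agent.Lib_MP_418a80_an.CircleB

/-!
# An ergodic cocycle perturbation over the circle group cannot exist
-/

set_option linter.unusedSectionVars false

namespace Pool.Agent.ErgCoc

open scoped ENNReal ComplexConjugate InnerProductSpace Topology
open Filter Classical MeasureTheory AddCircle

universe u v

local instance : Fact ((0 : ℝ) < 1) := ⟨zero_lt_one⟩

section fc

variable {E : Type u} [NormedAddCommGroup E] [InnerProductSpace ℂ E]
  {F : Type v} [NormedAddCommGroup F] [InnerProductSpace ℂ F]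

/-- Fourier coefficients for the circle `ℝ/ℤ`. -/
noncomputable def fc (f : AddCircle (1 : ℝ) → E) (n : ℤ) : E := fourierCoeff f n

theorem integrable_of_cont {f : AddCircle (1 : ℝ) → E} (hf : Continuous f) :
    Integrable f (haarAddCircle (T := 1)) :=
  hf.integrable_of_hasCompactSupport (HasCompactSupport.of_compactSpace f)

theorem fc_add {f g : AddCircle (1 : ℝ) → E} (hf : Continuous f) (hg : Continuous g) (n : ℤ) :
    fc (fun θ => f θ + g θ) n = fc f n + fc g n := by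
  unfold fc fourierCoeff
  rw [← integral_add ((integrable_of_cont hf).fourier_smul _)
    ((integrable_of_cont hg).fourier_smul _)]
  refine integral_congr_ae (Eventually.of_forall fun θ => ?_)
  simp only [smul_add]

theorem fc_sub {f g : AddCircle (1 : ℝ) → E} (hf : Continuous f) (hg : Continuous g) (n : ℤ) :
    fc (fun θ => f θ - g θ) n = fc f n - fc g n := by
  unfold fc fourierCoeff
  rw [← integral_sub ((integrable_of_cont hf).fourier_smul _)
    ((integrable_of_cont hg).fourier_smul _)]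
  refine integral_congr_ae (Eventually.of_forall fun θ => ?_)
  simp only [smul_sub]

theorem fc_smul (f : AddCircle (1 : ℝ) → E) (c : ℂ) (n : ℤ) :
    fc (fun θ => c • f θ) n = c • fc f n :=
  fourierCoeff.const_smul f c n

theorem fc_clm [CompleteSpace E] [CompleteSpace F] (L : E →L[ℂ] F) {f : AddCircle (1 : ℝ) → E}
    (hf : Continuous f) (n : ℤ) : fc (fun θ => L (f θ)) n = L (fc f n) := by
  unfold fc fourierCoeff
  rw [← ContinuousLinearMap.integral_comp_comm _ ((integrable_of_cont hf).fourier_smul _)]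
  refine integral_congr_ae (Eventually.of_forall fun θ => ?_)
  simp only [map_smul]

theorem norm_fc_le {f : AddCircle (1 : ℝ) → E} {C : ℝ} (h : ∀ θ, ‖f θ‖ ≤ C) (n : ℤ) :
    ‖fc f n‖ ≤ C := by
  unfold fc fourierCoeff
  refine (norm_integral_le_of_norm_le_const (C := C)
      (Eventually.of_forall fun θ => ?_)).trans (by simp)
  rw [norm_smul, fourier_apply, Circle.norm_coe, one_mul]
  exact h θ

theorem fc_translate (f : AddCircle (1 : ℝ) → E) (θ₀ : AddCircle (1 : ℝ)) (n : ℤ) :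
    fc (fun θ => f (θ₀ + θ)) n = (((toCircle θ₀) ^ n : Circle) : ℂ) • fc f n := by
  unfold fc fourierCoeff
  have h2 : ∀ θ : AddCircle (1 : ℝ), fourier (-n) θ • f (θ₀ + θ) =
      (((toCircle θ₀) ^ n : Circle) : ℂ) • (fourier (-n) (θ₀ + θ) • f (θ₀ + θ)) := by
    intro θ
    rw [smul_smul]
    congr 1
    rw [fourier_apply, fourier_apply, smul_add, toCircle_add, toCircle_zsmul θ₀]
    rw [← Circle.coe_mul, zpow_neg, mul_inv_cancel_left]
  simp only [h2]
  rw [integral_smul]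
  congr 1
  exact integral_add_left_eq_self (fun θ => fourier (-n) θ • f θ) θ₀

theorem fc_char (f : AddCircle (1 : ℝ) → E) (d n : ℤ) :
    fc (fun θ => (((toCircle θ) ^ d : Circle) : ℂ) • f θ) n = fc f (n - d) := by
  unfold fc fourierCoeff
  refine integral_congr_ae (Eventually.of_forall fun θ => ?_)
  simp only
  rw [smul_smul]
  congr 1
  rw [fourier_apply, fourier_apply, ← toCircle_zsmul, ← Circle.coe_mul, ← toCircle_add,
            ← add_smul]
  congr 3
  ring

theorem fc_const [CompleteSpace E] (c : E) : fc (fun _ => c) 0 = c := by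
  unfold fc fourierCoeff
  simp

/-- uniqueness of Fourier coefficients -/
theorem eq_zero_of_fc [CompleteSpace E] {f : AddCircle (1 : ℝ) → E} (hf : Continuous f)
    (h : ∀ n, fc f n = 0) : f 0 = 0 := by
  refine ext_inner_left ℂ fun w => ?_
  rw [inner_zero_right]
  let g : C(AddCircle (1 : ℝ), ℂ) := ⟨fun θ => ⟪w, f θ⟫_ℂ, continuous_const.inner hf⟩
  have hg : ∀ n, fourierCoeff g n = 0 := by
    intro n
    have h1 : fc (fun θ => (innerSL ℂ w) (f θ)) n = (innerSL ℂ w) (fc f n) :=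
      fc_clm (innerSL ℂ w) hf n
    rw [h n, map_zero] at h1
    exact h1
  have hsum : Summable (fourierCoeff g) := by
    have : fourierCoeff g = 0 := funext hg
    rw [this]; exact summable_zero
  have h3 := has_pointwise_sum_fourier_series_of_summable hsum 0
  simp only [hg, zero_smul] at h3
  have h4 := h3.unique hasSum_zero
  exact h4

end fc

namespace CocData

variable {Γ : Type u} [Group Γ] (D : CocData Γ)

/-- eigenoperators of the perturbed action -/
def Eig (n : ℤ) (x : L2 Γ →L[ℂ] L2 Γ) : Prop :=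
  x ∈ LG Γ ∧ ∀ t, D.β t x = ((t ^ n : Circle) : ℂ) • x

theorem W_one : D.W 1 = 1 := by
  have h1 : D.W 1 = D.W 1 * D.W 1 := by
    rw [← W_mul, mul_one]
  calc D.W 1 = (star (D.W 1) * D.W 1) * D.W 1 := by rw [star_W_mul, one_mul]
    _ = star (D.W 1) * D.W 1 := by rw [mul_assoc, ← h1]
    _ = 1 := D.star_W_mul 1

theorem β_at_one (x : L2 Γ →L[ℂ] L2 Γ) : D.β 1 x = x := by
  unfold β; rw [W_one]; simp

theorem cont_θ [Countable Γ] {x : L2 Γ →L[ℂ] L2 Γ} (hx : x ∈ LG Γ) (ζ : L2 Γ) :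
    Continuous fun θ : AddCircle (1 : ℝ) => D.β (toCircle θ) x ζ :=
  (D.continuous_β hx ζ).comp continuous_toCircle

theorem exists_Y [Countable Γ] {x : L2 Γ →L[ℂ] L2 Γ} (hx : x ∈ LG Γ) (n : ℤ) :
    ∃ y : L2 Γ →L[ℂ] L2 Γ, D.Eig n y ∧
      ∀ ζ, y ζ = fc (fun θ : AddCircle (1 : ℝ) => D.β (toCircle θ) x ζ) n := by
  let Y₀ : L2 Γ →ₗ[ℂ] L2 Γ :=
    { toFun := fun ζ => fc (fun θ : AddCircle (1 : ℝ) => D.β (toCircle θ) x ζ) n
      map_add' := by
        intro ζ ζ'
        rw [← fc_add (D.cont_θ hx ζ) (D.cont_θ hx ζ')]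
        simp only [map_add]
      map_smul' := by
        intro c ζ
        rw [RingHom.id_apply, ← fc_smul]
        simp only [map_smul] }
  let Y : L2 Γ →L[ℂ] L2 Γ := Y₀.mkContinuous ‖x‖ (by
    intro ζ
    refine norm_fc_le (fun θ => ?_) n
    refine ((D.β (toCircle θ) x).le_opNorm ζ).trans ?_
    gcongr
    exact D.norm_β _ _)
  have hY : ∀ ζ, Y ζ = fc (fun θ : AddCircle (1 : ℝ) => D.β (toCircle θ) x ζ) n :=
    fun ζ => rfl
  refine ⟨Y, ⟨?_, ?_⟩, hY⟩
  · rw [mem_LG]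
    intro g
    ext1 ζ
    rw [mulv, mulv, hY, hY, ← fc_clm (rho g) (D.cont_θ hx ζ)]
    congr 1
    funext θ
    rw [LG_apply_rho (D.β_mem hx _)]
  · intro t
    obtain ⟨θ₀, hθ₀⟩ : ∃ θ₀ : AddCircle (1 : ℝ), toCircle θ₀ = t := by
      obtain ⟨θ₀, h⟩ := (homeomorphCircle (T := 1) one_ne_zero).surjective t
      exact ⟨θ₀, by rw [← h, homeomorphCircle_apply]⟩
    ext1 ζ
    have h1 : D.β t Y ζ = D.W t (Y (star (D.W t) ζ)) := rfl
    have h2 := fc_translate (fun θ : AddCircle (1 : ℝ) => D.β (toCircle θ) x ζ) θ₀ n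
    rw [hθ₀] at h2
    have h3 : (((t ^ n : Circle) : ℂ) • Y) ζ = ((t ^ n : Circle) : ℂ) • (Y ζ) := rfl
    rw [h1, h3, hY, hY ζ, ← h2, ← fc_clm (D.W t) (D.cont_θ hx _)]
    congr 1
    funext θ
    rw [toCircle_add, hθ₀, ← β_comp]
    rfl

theorem eq_zero_of_coeff [Countable Γ] {z : L2 Γ →L[ℂ] L2 Γ} (hz : z ∈ LG Γ)
    (h : ∀ n, fc (fun θ : AddCircle (1 : ℝ) => D.β (toCircle θ) z (dl 1)) n = 0) :
    z = 0 := by
  refine LG_ext hz (zero_mem (LG Γ).toStarSubalgebra) ?_
  show z (dl 1) = 0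
  have h1 := eq_zero_of_fc (D.cont_θ hz (dl 1)) h
  rwa [toCircle_zero, β_at_one] at h1

theorem eig_zero {x : L2 Γ →L[ℂ] L2 Γ} (hx : D.Eig 0 x) :
    ∃ c : ℂ, x = c • (1 : L2 Γ →L[ℂ] L2 Γ) := by
  refine D.herg x hx.1 fun t => ?_
  rw [← β_eq, hx.2 t]; simp

theorem eig_mul {n m : ℤ} {x y : L2 Γ →L[ℂ] L2 Γ} (hx : D.Eig n x) (hy : D.Eig m y) :
    D.Eig (n + m) (x * y) := by
  refine ⟨mul_mem hx.1 hy.1, fun t => ?_⟩
  rw [β_mul, hx.2, hy.2, smul_mul_assoc, mul_smul_comm, smul_smul, ← Circle.coe_mul, ← zpow_add]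

theorem eig_one : D.Eig 0 (1 : L2 Γ →L[ℂ] L2 Γ) :=
  ⟨one_mem _, fun t => by rw [β_one]; simp⟩

theorem eig_smul {n : ℤ} {x : L2 Γ →L[ℂ] L2 Γ} (c : ℂ) (hx : D.Eig n x) : D.Eig n (c • x) := by
  refine ⟨(LG Γ).toStarSubalgebra.smul_mem hx.1 _, fun t => ?_⟩
  rw [β_smul, hx.2, smul_comm]

theorem eig_star {n : ℤ} {x : L2 Γ →L[ℂ] L2 Γ} (hx : D.Eig n x) : D.Eig (-n) (star x) := by
  refine ⟨star_mem hx.1, fun t => ?_⟩
  rw [β_star, hx.2, star_smul, zpow_neg, Circle.coe_inv_eq_conj]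
  rfl

theorem eig_pow {n : ℤ} {x : L2 Γ →L[ℂ] L2 Γ} (hx : D.Eig n x) (k : ℕ) :
    D.Eig (n * k) (x ^ k) := by
  induction k with
  | zero => simpa using D.eig_one
  | succ k ih =>
    rw [pow_succ]
    have := D.eig_mul ih hx
    convert this using 1
    push_cast; ring

theorem eig_unitary {n : ℤ} {x : L2 Γ →L[ℂ] L2 Γ} (hx : D.Eig n x) (hne : x ≠ 0) :
    ∃ c : ℂ, c ≠ 0 ∧ star x * x = c • (1 : L2 Γ →L[ℂ] L2 Γ) ∧
      x * star x = c • (1 : L2 Γ →L[ℂ] L2 Γ) := by
  have h1 := D.eig_mul (D.eig_star hx) hx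
  have h2 := D.eig_mul hx (D.eig_star hx)
  rw [neg_add_cancel] at h1
  rw [add_neg_cancel] at h2
  obtain ⟨c, hc⟩ := D.eig_zero h1
  obtain ⟨c', hc'⟩ := D.eig_zero h2
  have hc0 : c ≠ 0 := by
    intro h
    rw [h, zero_smul] at hc
    exact hne ((CStarRing.star_mul_self_eq_zero_iff x).1 hc)
  have hcc : c' = c := by
    have h3 : c' • x = c • x := by
      calc c' • x = (c' • (1 : L2 Γ →L[ℂ] L2 Γ)) * x := by rw [smul_mul_assoc, one_mul]
        _ = x * (star x * x) := by rw [← hc', mul_assoc]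
        _ = c • x := by rw [hc, mul_smul_comm, mul_one]
    have h4 : (c' - c) • x = 0 := by rw [sub_smul, h3, sub_self]
    rcases smul_eq_zero.1 h4 with h5 | h5
    · exact sub_eq_zero.1 h5
    · exact absurd h5 hne
  exact ⟨c, hc0, hc, hcc ▸ hc'⟩

/-- If `d > 0` is minimal with a nonzero eigenoperator `u` of degree `d`, then `u` commutes with
all eigenoperators. -/
theorem commute_of_minimal {d : ℕ} (hd : 0 < d) {x : L2 Γ →L[ℂ] L2 Γ} (hx : D.Eig d x)
    (hne : x ≠ 0)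
    (hmin : ∀ m : ℕ, 0 < m → m < d → ∀ y, D.Eig m y → y = 0) {m : ℤ} {w : L2 Γ →L[ℂ] L2 Γ}
    (hw : D.Eig m w) : x * w = w * x := by
  obtain ⟨c, hc0, hc1, hc2⟩ := D.eig_unitary hx hne
  let U : (L2 Γ →L[ℂ] L2 Γ)ˣ :=
    { val := x
      inv := c⁻¹ • star x
      val_inv := by rw [mul_smul_comm, hc2, smul_smul, inv_mul_cancel₀ hc0, one_smul]
      inv_val := by rw [smul_mul_assoc, hc1, smul_smul, inv_mul_cancel₀ hc0, one_smul] }
  have hU : ∀ q : ℤ, D.Eig (d * q) ((U ^ q : (L2 Γ →L[ℂ] L2 Γ)ˣ) : L2 Γ →L[ℂ] L2 Γ) := by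
    intro q
    rcases q with k | k
    · have := D.eig_pow hx k
      simpa using this
    · have h1 : D.Eig (-(d : ℤ)) ((U⁻¹ : (L2 Γ →L[ℂ] L2 Γ)ˣ) : L2 Γ →L[ℂ] L2 Γ) :=
        D.eig_smul _ (D.eig_star hx)
      have := D.eig_pow h1 (k + 1)
      rw [zpow_negSucc, ← inv_pow]
      convert this using 1
      · push_cast
        rw [Int.negSucc_eq]; ring
      · rw [Units.val_pow_eq_pow_val]
  -- divide with remainder
  have hr := D.eig_mul hw (hU (-(m / d)))
  have hr0 : m + d * -(m / d) = m % d := by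
    have := Int.emod_add_mul_ediv m d
    linarith
  rw [hr0] at hr
  have hd' : (0 : ℤ) < d := by exact_mod_cast hd
  have hr1 : 0 ≤ m % d := Int.emod_nonneg _ hd'.ne'
  have hr2 : m % d < d := Int.emod_lt_of_pos _ hd'
  obtain ⟨r, hr3⟩ := Int.eq_ofNat_of_zero_le hr1
  rw [hr3] at hr hr2
  have hcancel : w = (w * ((U ^ (-(m / d)) : (L2 Γ →L[ℂ] L2 Γ)ˣ) : L2 Γ →L[ℂ] L2 Γ)) *
      ((U ^ (m / d) : (L2 Γ →L[ℂ] L2 Γ)ˣ) : L2 Γ →L[ℂ] L2 Γ) := by
    rw [mul_assoc, ← Units.val_mul, ← zpow_add, neg_add_cancel, zpow_zero, Units.val_one, mul_one]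
  by_cases hr4 : r = 0
  · subst hr4
    obtain ⟨k, hk⟩ := D.eig_zero (by simpa only [Nat.cast_zero] using hr)
    rw [hk] at hcancel
    rw [hcancel, smul_mul_assoc, one_mul, mul_smul_comm, smul_mul_assoc]
    congr 1
    have h1 : (U * U ^ (m / d) : (L2 Γ →L[ℂ] L2 Γ)ˣ) = U ^ (m / d) * U :=
      (Commute.zpow_right (Commute.refl U) _).eq
    have := congrArg (fun V : (L2 Γ →L[ℂ] L2 Γ)ˣ => (V : L2 Γ →L[ℂ] L2 Γ)) h1
    simpa using this
  · have h1 := hmin r (Nat.pos_of_ne_zero hr4) (by exact_mod_cast hr2) _ hr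
    rw [h1, zero_mul] at hcancel
    rw [hcancel]; simp

include D in
/-- No ergodic perturbation over the circle group. -/
theorem contradiction [Countable Γ] [Nontrivial Γ] (hΓ : ICC Γ) : False := by
  by_cases hex : ∃ n : ℤ, n ≠ 0 ∧ ∃ x, x ≠ 0 ∧ D.Eig n x
  · -- positive degree
    have hex' : ∃ d : ℕ, 0 < d ∧ ∃ x, x ≠ 0 ∧ D.Eig d x := by
      obtain ⟨n, hn, x, hx, hE⟩ := hex
      rcases lt_or_gt_of_ne hn with h | h
      · refine ⟨(-n).toNat, by omega, star x, ?_, ?_⟩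
        · exact (star_ne_zero).2 hx
        · have := D.eig_star hE
          rwa [Int.toNat_of_nonneg (by omega)]
      · refine ⟨n.toNat, by omega, x, hx, ?_⟩
        rwa [Int.toNat_of_nonneg (by omega)]
    obtain ⟨hd, x, hx, hE⟩ := Nat.find_spec hex'
    set d := Nat.find hex' with hddef
    have hmin : ∀ m : ℕ, 0 < m → m < d → ∀ y, D.Eig m y → y = 0 := by
      intro m hm hmd y hy
      by_contra hy0
      exact Nat.find_min hex' hmd ⟨hm, y, hy0, hy⟩
    -- `x` is central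
    have hcentral : ∀ w ∈ LG Γ, w * x = x * w := by
      intro w hw
      have hz : w * x - x * w ∈ LG Γ := sub_mem (mul_mem hw hE.1) (mul_mem hE.1 hw)
      have h0 := D.eq_zero_of_coeff hz (by
        intro n
        obtain ⟨y, hy, hyζ⟩ := D.exists_Y hw (n - d)
        have hcomm := D.commute_of_minimal hd hE hx hmin hy
        have h1 : y (x (dl 1)) - x (y (dl 1)) = 0 := by
          have h2 : (y * x) (dl 1) - (x * y) (dl 1) = 0 := by rw [hcomm, sub_self]
          exact h2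
        rw [← h1, hyζ, hyζ, ← fc_clm x (D.cont_θ hw (dl 1)),
          ← fc_sub (D.cont_θ hw (x (dl 1)))
            (show Continuous (fun θ : AddCircle (1 : ℝ) => x (D.β (toCircle θ) w (dl 1))) from
              x.continuous.comp (D.cont_θ hw (dl 1))),
          ← fc_char _ d n]
        congr 1
        funext θ
        rw [β_sub, β_mul, β_mul, hE.2, mul_smul_comm, smul_mul_assoc, ← smul_sub]
        rfl)
      exact sub_eq_zero.1 h0
    -- hence scalar
    have hscal := LG_scalar_of_commute_lam hΓ hE.1 (fun s => (hcentral _ (lam_mem s)).symm)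
    set c := (x (dl 1)) 1 with hcdef
    -- contradiction
    have hd0 : (0 : ℝ) < d := by exact_mod_cast hd
    have h1 := hE.2 (Circle.exp (Real.pi / d))
    rw [hscal, β_smul, β_one] at h1
    have hc0 : c ≠ 0 := by
      intro h
      rw [h, zero_smul] at hscal
      exact hx hscal
    have h2 : (((Circle.exp (Real.pi / d)) ^ (d : ℤ) : Circle) : ℂ) = -1 := by
      rw [zpow_natCast, ← Circle.exp_nsmul]
      rw [nsmul_eq_mul, mul_div_cancel₀ _ hd0.ne']
      simp
    rw [h2] at h1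
    have h3 := congrArg (fun T => (T (dl 1)) 1) h1
    have h4 : ∀ e : ℂ, ((e • (1 : L2 Γ →L[ℂ] L2 Γ)) (dl 1)) 1 = e := by
      intro e
      show e • ((dl 1 : L2 Γ) 1) = e
      rw [dl_apply, if_pos rfl]; simp
    rw [smul_smul] at h3
    simp only [h4] at h3
    apply hc0
    have h5 : (2 : ℂ) * c = 0 := by linear_combination h3
    simpa using h5
  · push Not at hex
    -- every element is a scalar
    obtain ⟨s, hs⟩ := exists_ne (1 : Γ)
    have hz0 : ∀ n : ℤ, n ≠ 0 → ∀ y, D.Eig n y → y = 0 := by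
      intro n hn y hy
      by_contra hy0
      exact hex n hn y hy0 hy
    obtain ⟨y0, hy0, hy0ζ⟩ := D.exists_Y (lam_mem s) 0
    have hz : lam s - y0 ∈ LG Γ := sub_mem (lam_mem s) hy0.1
    have h0 := D.eq_zero_of_coeff hz (by
      intro n
      have hsplit : fc (fun θ : AddCircle (1 : ℝ) =>
          D.β (toCircle θ) (lam s - y0) (dl 1)) n =
          fc (fun θ : AddCircle (1 : ℝ) => D.β (toCircle θ) (lam s) (dl 1)) n -
          fc (fun θ : AddCircle (1 : ℝ) => D.β (toCircle θ) y0 (dl 1)) n := by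
        rw [← fc_sub (D.cont_θ (lam_mem s) (dl 1)) (D.cont_θ hy0.1 (dl 1))]
        simp only [β_sub, sub_apply]
      rw [hsplit]
      by_cases hn : n = 0
      · subst hn
        have h1 : fc (fun θ : AddCircle (1 : ℝ) => D.β (toCircle θ) y0 (dl 1)) 0 =
            y0 (dl 1) := by
          have h2 : ∀ θ : AddCircle (1 : ℝ), (D.β (toCircle θ) y0 (dl 1)) = y0 (dl 1) := by
            intro θ
            rw [hy0.2]; simp
          simp only [h2]
          exact fc_const _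
        rw [h1, hy0ζ, sub_self]
      · obtain ⟨y1, hy1, hy1ζ⟩ := D.exists_Y (lam_mem s) n
        obtain ⟨y2, hy2, hy2ζ⟩ := D.exists_Y hy0.1 n
        rw [← hy1ζ, ← hy2ζ, hz0 n hn y1 hy1, hz0 n hn y2 hy2, sub_self])
    obtain ⟨c, hc⟩ := D.eig_zero hy0
    rw [sub_eq_zero, hc] at h0
    have h1 := congrArg (fun T => (T (dl 1)) s) h0
    have h3 : ((c • (1 : L2 Γ →L[ℂ] L2 Γ)) (dl 1)) s = 0 := by
      show c • ((dl 1 : L2 Γ) s) = 0
      rw [dl_apply, if_neg hs]; simp
    have h4 : ((lam s) (dl 1) : L2 Γ) s = 1 := by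
      rw [lam_dl, mul_one, dl_apply, if_pos rfl]
    have h5 : (1 : ℂ) = 0 := by
      rw [← h4, ← h3]; exact h1
    exact one_ne_zero h5

end CocData

end Pool.Agent.ErgCoc
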