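import Mathlib

/-!
# Definitions: II₁ factors, actions of discrete groups, crossed products, cocycle perturbations

Von Neumann algebras are Mathlib's `VonNeumannAlgebra H` (a `*`-subalgebra of `H →L[ℂ] H` equal to
its bicommutant). An action of a group `G` (considered as a discrete group) on `M` is given by maps
`α g`, `g ∈ G`, whose restrictions to `M` are `*`-automorphisms of `M` with
`α_{gh} = α_g ∘ α_h` on `M`; the values of `α g` outside `M` play no role.
-/

namespace Pool.Agent.ErgCoc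

universe u v w

variable {H : Type u} [NormedAddCommGroup H] [InnerProductSpace ℂ H] [CompleteSpace H]

/-- `M` is a II₁ factor: its centre consists of the scalars, it is finite (every isometry in `M`
is a unitary) and it is infinite-dimensional. -/
structure IsII1Factor (M : VonNeumannAlgebra H) : Prop where
  /-- the centre of `M` consists of the scalars -/
  factor : ∀ x ∈ M, (∀ y ∈ M, x * y = y * x) → ∃ c : ℂ, x = c • (1 : H →L[ℂ] H)
  /-- `M` is finite in the sense of Murray and von Neumann -/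
  finite : ∀ u ∈ M, star u * u = 1 → u * star u = 1
  /-- `M` is infinite-dimensional -/
  infinite_dimensional : ¬ FiniteDimensional ℂ M.toStarSubalgebra

variable {G : Type v} [Group G]

/-- `α` is an action of the discrete group `G` on `M` by `*`-automorphisms. -/
structure IsAction (M : VonNeumannAlgebra H) (α : G → (H →L[ℂ] H) → (H →L[ℂ] H)) : Prop where
  map_mem : ∀ g, ∀ x ∈ M, α g x ∈ M
  map_add : ∀ g, ∀ x ∈ M, ∀ y ∈ M, α g (x + y) = α g x + α g y
  map_mul : ∀ g, ∀ x ∈ M, ∀ y ∈ M, α g (x * y) = α g x * α g y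
  map_smul : ∀ g, ∀ c : ℂ, ∀ x ∈ M, α g (c • x) = c • α g x
  map_star : ∀ g, ∀ x ∈ M, α g (star x) = star (α g x)
  one_act : ∀ x ∈ M, α 1 x = x
  mul_act : ∀ g h, ∀ x ∈ M, α (g * h) x = α g (α h x)

variable {K : Type w} [NormedAddCommGroup K] [InnerProductSpace ℂ K]

/-- The maps `J g : H → K`, `g ∈ G`, exhibit the Hilbert space `K` as `ℓ²(G, H)`: here `J g ξ`
corresponds to the function that is `ξ` at `g` and `0` elsewhere. -/
structure IsEllTwo (J : G → H →L[ℂ] K) : Prop where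
  inner_self : ∀ g ξ η, inner ℂ (J g ξ) (J g η) = inner ℂ ξ η
  inner_ne : ∀ g h ξ η, g ≠ h → inner ℂ (J g ξ) (J h η) = 0
  total : ∀ ζ : K, (∀ g ξ, inner ℂ (J g ξ) ζ = 0) → ζ = 0

/-- The operators `π(x)`, `x ∈ M`, on `K = ℓ²(G, H)`, given by `(π(x) ξ)(g) = α_{g⁻¹}(x) ξ(g)`. -/
def piOps (M : VonNeumannAlgebra H) (α : G → (H →L[ℂ] H) → (H →L[ℂ] H)) (J : G → H →L[ℂ] K) :
    Set (K →L[ℂ] K) :=
  {T | ∃ x ∈ M, ∀ g ξ, T (J g ξ) = J g (α g⁻¹ x ξ)}

/-- The translation operators `λ_h`, `h ∈ G`, on `K = ℓ²(G, H)`, given by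
`(λ_h ξ)(g) = ξ(h⁻¹ g)`. -/
def translationOps (J : G → H →L[ℂ] K) : Set (K →L[ℂ] K) :=
  {T | ∃ h : G, ∀ g ξ, T (J g ξ) = J (h * g) ξ}

/-- The von Neumann crossed product `M ⋊_α G` of `M` by the discrete group `G`: the bicommutant
of the self-adjoint set `π(M) ∪ λ(G)` of operators on `K = ℓ²(G, H)`. -/
def crossedProduct (M : VonNeumannAlgebra H) (α : G → (H →L[ℂ] H) → (H →L[ℂ] H))
    (J : G → H →L[ℂ] K) : Set (K →L[ℂ] K) :=
  Set.centralizer (Set.centralizer (piOps M α J ∪ translationOps J))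

/-- The action `α` of the discrete group `G` on `M` is strictly outer:
`M' ∩ (M ⋊_α G) = ℂ 1`. -/
def IsStrictlyOuter (M : VonNeumannAlgebra H) (α : G → (H →L[ℂ] H) → (H →L[ℂ] H))
    (J : G → H →L[ℂ] K) : Prop :=
  ∀ T ∈ crossedProduct M α J, (∀ S ∈ piOps M α J, T * S = S * T) →
    ∃ c : ℂ, T = c • (1 : K →L[ℂ] K)

/-- `v` is a 1-cocycle for `α`: a map from `G` to the unitaries of `M` with
`v_{gh} = v_g α_g(v_h)`. -/
structure IsCocycle (M : VonNeumannAlgebra H) (α : G → (H →L[ℂ] H) → (H →L[ℂ] H))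
    (v : G → (H →L[ℂ] H)) : Prop where
  mem : ∀ g, v g ∈ M
  star_mul_self : ∀ g, star (v g) * v g = 1
  mul_star_self : ∀ g, v g * star (v g) = 1
  cocycle : ∀ g h, v (g * h) = v g * α g (v h)

/-- The cocycle perturbation `Ad v ∘ α` is ergodic: every `x ∈ M` with
`v_g α_g(x) v_g^* = x` for all `g` is a scalar. -/
def PerturbationIsErgodic (M : VonNeumannAlgebra H) (α : G → (H →L[ℂ] H) → (H →L[ℂ] H))
    (v : G → (H →L[ℂ] H)) : Prop :=
  ∀ x ∈ M, (∀ g, v g * α g x * star (v g) = x) → ∃ c : ℂ, x = c • (1 : H →L[ℂ] H)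

end Pool.Agent.ErgCoc
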