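import Pool.Agent.Lib_MP_418a80_an.MkImpl

/-!
# The group of finitary permutations
-/

set_option linter.unusedSectionVars false

namespace Pool.Agent.ErgCoc

open scoped ENNReal ComplexConjugate
open Classical

universe u v

/-- The group of finitary permutations of `I`. -/
def FSym (I : Type u) : Subgroup (Equiv.Perm I) where
  carrier := {σ | {x | σ x ≠ x}.Finite}
  one_mem' := by simp
  mul_mem' := by
    intro σ τ hσ hτ
    refine (Set.Finite.union hσ hτ).subset ?_
    intro x hx
    by_contra h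
    simp only [Set.mem_union, Set.mem_ofPred_eq, not_or, not_not] at h
    apply hx
    rw [Equiv.Perm.mul_apply, h.2, h.1]
  inv_mem' := by
    intro σ hσ
    refine Set.Finite.subset hσ ?_
    intro x hx hx'
    apply hx
    rw [Equiv.Perm.inv_eq_iff_eq]
    exact hx'.symm

theorem mem_FSym {I : Type u} {σ : Equiv.Perm I} : σ ∈ FSym I ↔ {x | σ x ≠ x}.Finite := Iff.rfl

instance (I : Type u) : (FSym I).Normal where
  conj_mem := by
    intro σ hσ π
    rw [mem_FSym] at *
    refine (hσ.image π).subset ?_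
    intro x hx
    refine ⟨π⁻¹ x, ?_, by simp⟩
    intro h
    apply hx
    rw [Equiv.Perm.mul_apply, Equiv.Perm.mul_apply, h]
    simp

theorem swap_mem_FSym {I : Type u} [DecidableEq I] (a b : I) : Equiv.swap a b ∈ FSym I := by
  rw [mem_FSym]
  refine (Set.toFinite {a, b}).subset ?_
  intro x hx
  by_contra h
  simp only [Set.mem_insert_iff, Set.mem_singleton_iff, not_or] at h
  exact hx (Equiv.swap_apply_of_ne_of_ne h.1 h.2)

/-- Twisted conjugacy classes of the finitary symmetric group are infinite. -/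
theorem twisted_infinite {I : Type u} [Infinite I] (π : Equiv.Perm I) (t : FSym I)
    (h : (t : Equiv.Perm I) ≠ π) :
    (Set.range fun s : FSym I => ((MulAut.conjNormal π s)⁻¹ * t * s : FSym I)).Infinite := by
  have hne : π⁻¹ * t ≠ 1 := by
    intro h'
    exact h (inv_mul_eq_one.1 h').symm
  obtain ⟨x0, hx0⟩ : ∃ x, (π⁻¹ * (t : Equiv.Perm I)) x ≠ x := by
    by_contra hcon
    push Not at hcon
    exact hne (Equiv.ext hcon)
  set y0 := (π⁻¹ * (t : Equiv.Perm I)) x0 with hy0
  -- the family indexed by `z`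
  let S : Set I := {x0, y0}ᶜ
  have hS : S.Infinite := (Set.toFinite {x0, y0}).infinite_compl
  let f : I → FSym I := fun z =>
    (MulAut.conjNormal π ⟨Equiv.swap x0 z, swap_mem_FSym x0 z⟩)⁻¹ * t *
      ⟨Equiv.swap x0 z, swap_mem_FSym x0 z⟩
  have hf : ∀ z ∈ S, (f z : Equiv.Perm I) z = π y0 := by
    intro z hz
    have hz1 : z ≠ x0 := fun h' => hz (by simp [h'])
    have hz2 : z ≠ y0 := fun h' => hz (by simp [h'])
    have h1 : (f z : Equiv.Perm I) = (π * Equiv.swap x0 z * π⁻¹)⁻¹ * t * Equiv.swap x0 z := by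
      simp [f]
    rw [h1]
    simp only [mul_inv_rev, inv_inv, Equiv.swap_inv, Equiv.Perm.mul_apply,
      Equiv.swap_apply_right]
    have h2 : π⁻¹ ((t : Equiv.Perm I) x0) = y0 := by rw [hy0]; rfl
    rw [h2, Equiv.swap_apply_of_ne_of_ne hx0 hz2.symm]
  have hinj : Set.InjOn f S := by
    intro z hz z' hz' hzz'
    have h1 := hf z hz
    have h2 := hf z' hz'
    rw [hzz'] at h1
    exact (f z' : Equiv.Perm I).injective (h1.trans h2.symm)
  refine (hS.image hinj).mono ?_
  rintro _ ⟨z, _, rfl⟩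
  exact ⟨_, rfl⟩

theorem FSym_ICC {I : Type u} [Infinite I] : ICC (FSym I) := by
  intro t ht
  have := twisted_infinite (I := I) 1 t (by
    intro h; exact ht (Subtype.ext h))
  refine this.mono ?_
  rintro _ ⟨s, rfl⟩
  refine ⟨s, ?_⟩
  show s⁻¹ * t * s = _
  simp

instance {I : Type u} [Infinite I] : Nontrivial (FSym I) := by
  obtain ⟨a, b, hab⟩ := exists_pair_ne I
  refine ⟨⟨⟨Equiv.swap a b, swap_mem_FSym a b⟩, 1, ?_⟩⟩
  intro h
  have := congrArg (fun σ : FSym I => (σ : Equiv.Perm I) a) h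
  simp at this
  exact hab this.symm

end Pool.Agent.ErgCoc
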