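import Pool.Agent.Lib_MP_418a80_an.Mono
import Pool.Agent.Lib_MP_418a80_an.Defs

/-!
# The group von Neumann algebra of an ICC group is a II₁ factor
-/

set_option linter.unusedSectionVars false

namespace Pool.Agent.ErgCoc

open scoped ENNReal ComplexConjugate
open Classical

universe u v

theorem mulv {E : Type*} [NormedAddCommGroup E] [InnerProductSpace ℂ E] (S T : E →L[ℂ] E)
    (ξ : E) : (S * T) ξ = S (T ξ) := rfl

section GroupVN

variable (Γ : Type u) [Group Γ]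

/-- `ℓ²(Γ)`. -/
abbrev L2 : Type u := lp (fun _ : Γ => ℂ) 2

variable {Γ}

/-- The basis vector `δ_s`. -/
noncomputable def dl (s : Γ) : L2 Γ := lp.single 2 s (1 : ℂ)

theorem dl_apply (s t : Γ) : (dl s : L2 Γ) t = if t = s then 1 else 0 := by
  unfold dl
  rw [lp.single_apply, Pi.single_apply]

theorem norm_dl (s : Γ) : ‖dl s‖ = 1 := by
  unfold dl
  rw [lp.norm_single (by norm_num)]
  simp

theorem inner_dl_left (s : Γ) (ξ : L2 Γ) : inner ℂ (dl s) ξ = ξ s := by
  unfold dl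
  rw [lp.inner_single_left]
  simp

theorem clm_ext_dl {F : Type*} [NormedAddCommGroup F] [InnerProductSpace ℂ F]
    {S T : L2 Γ →L[ℂ] F} (h : ∀ s : Γ, S (dl s) = T (dl s)) : S = T := by
  refine clm_ext_single fun i e => ?_
  have : (lp.single 2 i e : L2 Γ) = e • dl i := by
    unfold dl
    rw [← lp.single_smul]
    simp
  rw [this, map_smul, map_smul, h i]

/-- left translation `(λ_g ξ)(s) = ξ(g⁻¹ s)` -/
noncomputable def lamI (g : Γ) : L2 Γ ≃ₗᵢ[ℂ] L2 Γ :=
  mono (Equiv.mulLeft g) (fun _ => LinearIsometryEquiv.refl ℂ ℂ)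

/-- right translation `(ρ_g ξ)(s) = ξ(s g)` -/
noncomputable def rhoI (g : Γ) : L2 Γ ≃ₗᵢ[ℂ] L2 Γ :=
  mono (Equiv.mulRight g⁻¹) (fun _ => LinearIsometryEquiv.refl ℂ ℂ)

/-- `λ_g` as a bounded operator -/
noncomputable def lam (g : Γ) : L2 Γ →L[ℂ] L2 Γ := (lamI g : L2 Γ →L[ℂ] L2 Γ)

/-- `ρ_g` as a bounded operator -/
noncomputable def rho (g : Γ) : L2 Γ →L[ℂ] L2 Γ := (rhoI g : L2 Γ →L[ℂ] L2 Γ)

@[simp] theorem lam_apply (g : Γ) (ξ : L2 Γ) (s : Γ) : (lam g ξ) s = ξ (g⁻¹ * s) := by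
  simp [lam, lamI]

@[simp] theorem rho_apply (g : Γ) (ξ : L2 Γ) (s : Γ) : (rho g ξ) s = ξ (s * g) := by
  simp [rho, rhoI]

theorem lam_dl (g s : Γ) : lam g (dl s) = dl (g * s) := by
  ext t
  simp only [lam_apply, dl_apply]
  congr 1
  simp [inv_mul_eq_iff_eq_mul]

theorem rho_dl (g s : Γ) : rho g (dl s) = dl (s * g⁻¹) := by
  ext t
  simp only [rho_apply, dl_apply]
  congr 1
  simp [eq_mul_inv_iff_mul_eq]

theorem lam_mul (g h : Γ) : lam (g * h) = lam g * lam h := by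
  refine clm_ext_dl fun s => ?_
  rw [mulv, lam_dl, lam_dl, lam_dl, mul_assoc]

theorem rho_mul (g h : Γ) : rho (g * h) = rho g * rho h := by
  refine clm_ext_dl fun s => ?_
  rw [mulv, rho_dl, rho_dl, rho_dl, mul_inv_rev, mul_assoc]

theorem lam_one : lam (1 : Γ) = 1 := by
  refine clm_ext_dl fun s => ?_
  rw [lam_dl]; simp

theorem rho_one : rho (1 : Γ) = 1 := by
  refine clm_ext_dl fun s => ?_
  rw [rho_dl]; simp

theorem star_lam (g : Γ) : star (lam g) = lam g⁻¹ := by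
  have h1 : star (lam g) = ((lamI g).symm : L2 Γ →L[ℂ] L2 Γ) := by
    unfold lam
    exact LinearIsometryEquiv.star_eq_symm _
  rw [h1]
  ext ξ s
  simp [lamI]
  rfl

theorem star_rho (g : Γ) : star (rho g) = rho g⁻¹ := by
  have h1 : star (rho g) = ((rhoI g).symm : L2 Γ →L[ℂ] L2 Γ) := by
    unfold rho
    exact LinearIsometryEquiv.star_eq_symm _
  rw [h1]
  ext ξ s
  simp [rhoI]
  rfl

theorem lam_mul_inv (g : Γ) : lam g * lam g⁻¹ = 1 := by
  rw [← lam_mul, mul_inv_cancel, lam_one]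

theorem lam_inv_mul (g : Γ) : lam g⁻¹ * lam g = 1 := by
  rw [← lam_mul, inv_mul_cancel, lam_one]

theorem rho_mul_inv (g : Γ) : rho g * rho g⁻¹ = 1 := by
  rw [← rho_mul, mul_inv_cancel, rho_one]

theorem rho_inv_mul (g : Γ) : rho g⁻¹ * rho g = 1 := by
  rw [← rho_mul, inv_mul_cancel, rho_one]

variable (Γ) in
/-- The group von Neumann algebra `L(Γ)`: the commutant of the right translations. -/
noncomputable def LG : VonNeumannAlgebra (L2 Γ) where
  toStarSubalgebra := StarSubalgebra.centralizer ℂ (Set.range (rho : Γ → (L2 Γ →L[ℂ] L2 Γ)))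
  centralizer_centralizer' := by
    show Set.centralizer (Set.centralizer
      ((StarSubalgebra.centralizer ℂ (Set.range (rho : Γ → (L2 Γ →L[ℂ] L2 Γ)))) :
        Set (L2 Γ →L[ℂ] L2 Γ))) = _
    rw [StarSubalgebra.coe_centralizer, Set.centralizer_centralizer_centralizer]
    rfl

theorem mem_LG {x : L2 Γ →L[ℂ] L2 Γ} : x ∈ LG Γ ↔ ∀ g, rho g * x = x * rho g := by
  have : x ∈ LG Γ ↔ x ∈ (StarSubalgebra.centralizer ℂ (Set.range (rho : Γ → (L2 Γ →L[ℂ] L2 Γ)))) :=
    Iff.rfl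
  rw [this, StarSubalgebra.mem_centralizer_iff]
  constructor
  · intro h g
    exact (h _ ⟨g, rfl⟩).1
  · rintro h _ ⟨g, rfl⟩
    refine ⟨h g, ?_⟩
    rw [star_rho]
    exact h _

theorem lam_mem (g : Γ) : lam g ∈ LG Γ := by
  rw [mem_LG]
  intro h
  refine clm_ext_dl fun s => ?_
  simp only [mulv, lam_dl, rho_dl, mul_assoc]

/-- the defining relation applied to vectors -/
theorem LG_apply_rho {x : L2 Γ →L[ℂ] L2 Γ} (hx : x ∈ LG Γ) (g : Γ) (ξ : L2 Γ) :
    x (rho g ξ) = rho g (x ξ) := by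
  have := congrArg (fun T => T ξ) (mem_LG.1 hx g)
  simpa using this.symm

theorem LG_dl {x : L2 Γ →L[ℂ] L2 Γ} (hx : x ∈ LG Γ) (s : Γ) :
    x (dl s) = rho s⁻¹ (x (dl 1)) := by
  rw [← LG_apply_rho hx, rho_dl]; simp

theorem LG_coeff {x : L2 Γ →L[ℂ] L2 Γ} (hx : x ∈ LG Γ) (s t : Γ) :
    (x (dl s)) t = (x (dl 1)) (t * s⁻¹) := by
  rw [LG_dl hx, rho_apply]

/-- `δ_1` is separating for `L(Γ)`. -/
theorem LG_ext {x y : L2 Γ →L[ℂ] L2 Γ} (hx : x ∈ LG Γ) (hy : y ∈ LG Γ)
    (h : x (dl 1) = y (dl 1)) : x = y := by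
  refine clm_ext_dl fun s => ?_
  rw [LG_dl hx, LG_dl hy, h]

theorem LG_star_coeff {x : L2 Γ →L[ℂ] L2 Γ} (hx : x ∈ LG Γ) (t : Γ) :
    (star x (dl 1)) t = conj ((x (dl 1)) t⁻¹) := by
  rw [← inner_dl_left, ContinuousLinearMap.star_eq_adjoint,
    ContinuousLinearMap.adjoint_inner_right, ← inner_conj_symm, inner_dl_left, LG_coeff hx]
  simp

theorem LG_norm_star {x : L2 Γ →L[ℂ] L2 Γ} (hx : x ∈ LG Γ) :
    ‖star x (dl 1)‖ = ‖x (dl 1)‖ := by
  rw [← sq_eq_sq₀ (norm_nonneg _) (norm_nonneg _), norm_sq_eq_tsum, norm_sq_eq_tsum]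
  simp only [LG_star_coeff hx, RCLike.norm_conj]
  exact (Equiv.inv Γ).tsum_eq (fun t => ‖(x (dl 1)) t‖ ^ 2)

/-- an `ℓ²` function whose absolute value is constant on an infinite set vanishes there -/
theorem eq_zero_of_const_on_infinite (ξ : L2 Γ) {S : Set Γ} (hS : S.Infinite) (t : Γ)
    (h : ∀ s ∈ S, ‖ξ s‖ = ‖ξ t‖) : ξ t = 0 := by
  by_contra hne
  have hpos : 0 < ‖ξ t‖ ^ 2 := by positivity
  have hsum := summable_norm_sq ξ
  have htend := hsum.tendsto_cofinite_zero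
  have hev := htend.eventually (gt_mem_nhds hpos)
  have : {s : Γ | ¬ (‖ξ s‖ ^ 2 < ‖ξ t‖ ^ 2)}.Finite := hev
  refine hS (this.subset fun s hs => ?_)
  simp only [Set.mem_ofPred_eq, not_lt]
  rw [h s hs]

/-- infinite conjugacy classes -/
def ICC (Γ : Type u) [Group Γ] : Prop :=
  ∀ s : Γ, s ≠ 1 → (Set.range fun g : Γ => g⁻¹ * s * g).Infinite

theorem LG_scalar_of_commute_lam (hΓ : ICC Γ) {x : L2 Γ →L[ℂ] L2 Γ} (hx : x ∈ LG Γ)
    (h : ∀ s, x * lam s = lam s * x) : x = ((x (dl 1)) 1) • (1 : L2 Γ →L[ℂ] L2 Γ) := by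
  have h1 : ∀ s t : Γ, (x (dl 1)) (s⁻¹ * t * s) = (x (dl 1)) t := by
    intro s t
    have h2 : x (dl s) = lam s (x (dl 1)) := by
      have := congrArg (fun T => T (dl 1)) (h s)
      simp only [mulv, lam_dl, mul_one] at this
      exact this
    have h3 : (x (dl s)) (t * s) = (x (dl 1)) t := by
      rw [LG_coeff hx]; simp
    rw [h2, lam_apply, ← mul_assoc] at h3
    exact h3
  have h2 : ∀ t : Γ, t ≠ 1 → (x (dl 1)) t = 0 := by
    intro t ht
    refine eq_zero_of_const_on_infinite _ (hΓ t ht) t ?_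
    rintro _ ⟨g, rfl⟩
    show ‖(x (dl 1)) (g⁻¹ * t * g)‖ = _
    rw [h1]
  have h3 : x (dl 1) = (((x (dl 1)) 1) • (1 : L2 Γ →L[ℂ] L2 Γ)) (dl 1) := by
    ext t
    by_cases ht : t = 1
    · subst ht
      simp [dl_apply]
    · rw [h2 t ht]
      simp [dl_apply, ht]
  refine LG_ext hx ?_ h3
  exact (LG Γ).toStarSubalgebra.smul_mem (one_mem (LG Γ)) _

theorem LG_isII1Factor [Nontrivial Γ] (hΓ : ICC Γ) : IsII1Factor (LG Γ) where
  factor := by
    intro x hx h
    exact ⟨_, LG_scalar_of_commute_lam hΓ hx fun s => h _ (lam_mem s)⟩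
  finite := by
    intro u hu huu
    have hus : star u ∈ LG Γ := star_mem hu
    -- the vector `(1 - u u^*) δ_1` vanishes
    have h1 : ‖u (dl 1)‖ = 1 := by
      have h2 : ‖u (dl 1)‖ ^ 2 = ‖dl (1 : Γ)‖ ^ 2 := by
        have h3 : (inner ℂ (u (dl 1)) (u (dl 1)) : ℂ) = inner ℂ (dl (1 : Γ)) (dl 1) := by
          rw [← ContinuousLinearMap.adjoint_inner_right, ← ContinuousLinearMap.star_eq_adjoint,
            ← mulv, huu]
          simp
        rw [inner_self_eq_norm_sq_to_K, inner_self_eq_norm_sq_to_K] at h3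
        exact_mod_cast h3
      rw [norm_dl] at h2
      have := (sq_eq_sq₀ (norm_nonneg (u (dl 1))) zero_le_one).1 (by simpa using h2)
      exact this
    have h2 : ‖star u (dl 1)‖ = 1 := by rw [LG_norm_star hu, h1]
    have h3 : (u * star u) (dl 1) = dl 1 := by
      have h4 : (inner ℂ (dl (1 : Γ)) ((u * star u) (dl 1)) : ℂ) = 1 := by
        rw [mulv, ← ContinuousLinearMap.adjoint_inner_left,
          ← ContinuousLinearMap.star_eq_adjoint, inner_self_eq_norm_sq_to_K, h2]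
        simp
      have h5 : ‖(u * star u) (dl 1)‖ ≤ 1 := by
        have h6 : ‖(u * star u) (dl 1)‖ = ‖star u (dl 1)‖ := by
          rw [mulv]
          have h7 := ContinuousLinearMap.norm_map_iff_adjoint_comp_self u
          exact (h7.2 huu) _
        rw [h6, h2]
      have h6 : ‖(u * star u) (dl 1) - dl 1‖ ^ 2 ≤ 0 := by
        rw [@norm_sub_sq ℂ]
        rw [norm_dl]
        have h7 : RCLike.re (inner ℂ ((u * star u) (dl 1)) (dl (1 : Γ)) : ℂ) = 1 := by
          rw [← inner_conj_symm, h4]; simp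
        rw [h7]
        nlinarith [norm_nonneg ((u * star u) (dl (1 : Γ)))]
      have h8 : ‖(u * star u) (dl 1) - dl (1 : Γ)‖ = 0 := by
        have := sq_nonneg ‖(u * star u) (dl 1) - dl (1 : Γ)‖
        exact pow_eq_zero_iff (two_ne_zero) |>.1 (le_antisymm h6 this)
      exact sub_eq_zero.1 (norm_eq_zero.1 h8)
    exact LG_ext (mul_mem hu hus) (one_mem _) (by simpa using h3)
  infinite_dimensional := by
    intro hfin
    obtain ⟨s, hs⟩ := exists_ne (1 : Γ)
    have hinf : Infinite Γ := by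
      by_contra hfin'
      rw [not_infinite_iff_finite] at hfin'
      exact hΓ s hs (Set.toFinite _)
    -- the operators `λ_g` are linearly independent
    let f : Γ → (LG Γ).toStarSubalgebra := fun g => ⟨lam g, lam_mem g⟩
    have hli : LinearIndependent ℂ f := by
      rw [linearIndependent_iff']
      intro S c hc g hg
      have h1 : (∑ i ∈ S, c i • lam i : L2 Γ →L[ℂ] L2 Γ) = 0 := by
        have := congrArg (fun x : (LG Γ).toStarSubalgebra => (x : L2 Γ →L[ℂ] L2 Γ)) hc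
        simpa [f] using this
      have h2 := congrArg (fun T => (T (dl 1)) g) h1
      simp only [sum_apply, smul_apply, lam_dl,
        mul_one] at h2
      rw [lp.coeFn_sum] at h2
      simp [dl_apply, hg] at h2
      exact h2
    exact Module.Finite.not_linearIndependent_of_infinite f hli

end GroupVN

end Pool.Agent.ErgCoc
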