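import Pool.Agent.Lib_MP_418a80_an.Action

/-!
# Implementing data from automorphisms and characters
-/

set_option linter.unusedSectionVars false

namespace Pool.Agent.ErgCoc

open scoped ENNReal ComplexConjugate
open Classical

universe u v

/-- multiplication by a unit complex number -/
noncomputable def cm (z : Circle) : ℂ ≃ₗᵢ[ℂ] ℂ where
  toFun w := (z : ℂ) * w
  invFun w := ((z⁻¹ : Circle) : ℂ) * w
  map_add' x y := by ring
  map_smul' c x := by simp [mul_left_comm]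
  left_inv x := by simp
  right_inv x := by simp
  norm_map' x := by simp

@[simp] theorem cm_apply (z : Circle) (w : ℂ) : cm z w = (z : ℂ) * w := rfl

variable {Γ : Type u} [Group Γ] {G : Type v} [Group G]

/-- Implementing data given by `U_g δ_s = c_g(s) δ_{θ_g(s)}`. -/
noncomputable def mkImpl (θ : G →* MulAut Γ) (c : G → Γ → Circle)
    (hc : ∀ g h s, c (g * h) s = c g (θ h s) * c h s)
    (hcm : ∀ g s t, c g (s * t) = c g s * c g t) : Impl G Γ where
  U :=
    { toFun := fun g => mono (θ g).toEquiv (fun t => cm (c g ((θ g)⁻¹ t)))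
      map_one' := by
        have h1 : ∀ s, c 1 s = 1 := by
          intro s
          have := hc 1 1 s
          simpa using this
        ext ξ s
        simp [h1]
        rfl
      map_mul' := by
        intro g h
        ext ξ s
        show ((c (g * h) ((θ (g * h))⁻¹ s) : Circle) : ℂ) * ξ ((θ (g * h)).symm s) =
          ((c g ((θ g)⁻¹ s) : Circle) : ℂ) * (((c h ((θ h)⁻¹ ((θ g).symm s)) : Circle) : ℂ) *
            ξ ((θ h).symm ((θ g).symm s)))
        have h1 : (θ (g * h)).symm s = (θ h).symm ((θ g).symm s) := by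
          rw [map_mul]; rfl
        have h2 : (θ (g * h))⁻¹ s = (θ h)⁻¹ ((θ g)⁻¹ s) := by
          rw [map_mul, mul_inv_rev]; rfl
        rw [h1, h2, hc]
        have h3 : (θ h) ((θ h)⁻¹ ((θ g)⁻¹ s)) = (θ g)⁻¹ s := by simp
        rw [h3]
        have h4 : (θ g).symm s = (θ g)⁻¹ s := rfl
        rw [h4, Circle.coe_mul, mul_assoc] }
  θ g s := θ g s
  z g s := c g s
  lam_rel := by
    intro g s ξ
    ext t
    show ((c g ((θ g)⁻¹ t) : Circle) : ℂ) * (lam s ξ) ((θ g).symm t) =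
      (c g s : ℂ) * (((c g ((θ g)⁻¹ ((θ g s)⁻¹ * t)) : Circle) : ℂ) *
        ξ ((θ g).symm ((θ g s)⁻¹ * t)))
    rw [lam_apply]
    have h1 : (θ g).symm ((θ g s)⁻¹ * t) = s⁻¹ * (θ g).symm t := by
      rw [map_mul, map_inv]; simp
    have h2 : (θ g)⁻¹ ((θ g s)⁻¹ * t) = s⁻¹ * (θ g)⁻¹ t := by
      rw [map_mul, map_inv]; simp
    rw [h1, h2, ← mul_assoc, ← Circle.coe_mul, ← hcm]
    simp
  rho_rel := by
    intro g s
    refine ⟨θ g s, ((c g s)⁻¹ : Circle), ?_⟩
    intro ξ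
    ext t
    have h0 : ∀ (r : Γ) (η : L2 Γ), (rho r η) t = η (t * r) := fun r η => rho_apply r η t
    show ((c g ((θ g)⁻¹ t) : Circle) : ℂ) * (rho s ξ) ((θ g).symm t) =
      (((c g s)⁻¹ : Circle) : ℂ) * ((rho (θ g s) (mono (θ g).toEquiv
        (fun t => cm (c g ((θ g)⁻¹ t))) ξ)) t)
    rw [h0]
    show ((c g ((θ g)⁻¹ t) : Circle) : ℂ) * (rho s ξ) ((θ g).symm t) =
      (((c g s)⁻¹ : Circle) : ℂ) * (((c g ((θ g)⁻¹ (t * (θ g s))) : Circle) : ℂ) *
        ξ ((θ g).symm (t * (θ g s))))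
    rw [rho_apply]
    have h1 : (θ g).symm (t * (θ g s)) = (θ g).symm t * s := by
      rw [map_mul]; simp
    have h2 : (θ g)⁻¹ (t * (θ g s)) = (θ g)⁻¹ t * s := by
      rw [map_mul]; simp
    rw [h1, h2, ← mul_assoc, ← Circle.coe_mul, hcm]
    congr 2
    rw [mul_comm (c g ((θ g)⁻¹ t)), inv_mul_cancel_left]

section

variable (θ : G →* MulAut Γ) (c : G → Γ → Circle)
    (hc : ∀ g h s, c (g * h) s = c g (θ h s) * c h s)
    (hcm : ∀ g s t, c g (s * t) = c g s * c g t)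

theorem mkImpl_u_dl (g : G) (s : Γ) :
    (mkImpl θ c hc hcm).u g (dl s) = (c g s : ℂ) • dl (θ g s) := by
  ext t
  show ((c g ((θ g)⁻¹ t) : Circle) : ℂ) * (dl s) ((θ g).symm t) =
    (c g s : ℂ) * (dl (θ g s)) t
  rw [dl_apply, dl_apply]
  by_cases h : t = θ g s
  · subst h
    have h1 : (θ g).symm (θ g s) = s := by simp
    have h2 : (θ g)⁻¹ (θ g s) = s := by simp
    rw [h1, h2]; simp
  · have h1 : (θ g).symm t ≠ s := by
      intro h'; apply h; rw [← h']; simp
    rw [if_neg h, if_neg h1]; simp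

theorem mkImpl_conj_lam (g : G) (s : Γ) :
    (mkImpl θ c hc hcm).u g * lam s * (mkImpl θ c hc hcm).u g⁻¹ =
      (c g s : ℂ) • lam (θ g s) := by
  have h := (mkImpl θ c hc hcm).u_lam g s
  rw [h, smul_mul_assoc, mul_assoc, Impl.u_mul_inv, mul_one]
  rfl

theorem mkImpl_rel (g : G) (w : L2 Γ →L[ℂ] L2 Γ) (hw : w ∈ LG Γ)
    (h : ∀ s, w * lam s = ((mkImpl θ c hc hcm).u g * lam s * (mkImpl θ c hc hcm).u g⁻¹) * w)
    (s t : Γ) : (w (dl 1)) t = (c g s : ℂ) * (w (dl 1)) ((θ g s)⁻¹ * t * s) := by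
  have h1 := h s
  rw [mkImpl_conj_lam] at h1
  have h2 := congrArg (fun T => (T (dl s⁻¹)) t) h1
  simp only [smul_mul_assoc, mulv, lam_dl, mul_inv_cancel] at h2
  rw [h2]
  show (c g s : ℂ) * ((lam (θ g s) (w (dl s⁻¹))) t) = _
  rw [lam_apply, LG_coeff hw, inv_inv]

/-- A criterion for freeness. -/
theorem mkImpl_free
    (hfree : ∀ g : G, g ≠ 1 → ∀ t : Γ,
      (Set.range fun s : Γ => (θ g s)⁻¹ * t * s).Infinite ∨
        ∃ s : Γ, (θ g s)⁻¹ * t * s = t ∧ c g s ≠ 1) :
    (mkImpl θ c hc hcm).Free := by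
  intro g hg w hw h
  have hrel := mkImpl_rel θ c hc hcm g w hw h
  refine LG_ext hw (zero_mem (LG Γ).toStarSubalgebra) ?_
  ext t
  show (w (dl 1)) t = 0
  rcases hfree g hg t with hinf | ⟨s, hs, hcs⟩
  · refine eq_zero_of_const_on_infinite _ hinf t ?_
    rintro _ ⟨s, rfl⟩
    have := congrArg norm (hrel s t)
    rw [norm_mul, Circle.norm_coe, one_mul] at this
    exact this.symm
  · have h1 := hrel s t
    rw [hs] at h1
    by_contra hne
    apply hcs
    have h2 : (c g s : ℂ) = 1 := by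
      have h3 : (1 - (c g s : ℂ)) * (w (dl 1)) t = 0 := by
        rw [sub_mul, one_mul, ← h1, sub_self]
      rcases mul_eq_zero.1 h3 with h4 | h4
      · exact (sub_eq_zero.1 h4).symm
      · exact absurd h4 hne
    exact Circle.ext (by simpa using h2)

end

end Pool.Agent.ErgCoc
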