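import Mathlib

/-!
# Monomial unitaries on `ℓ²(ι, E)`
-/

set_option linter.unusedSectionVars false

namespace Pool.Agent.ErgCoc

open scoped ENNReal

universe u v

section Mono

variable {ι : Type v} {E : Type u} [NormedAddCommGroup E] [InnerProductSpace ℂ E]

theorem memlp_two_iff {f : ι → E} : Memℓp f 2 ↔ Summable fun i => ‖f i‖ ^ (2 : ℕ) := by
  rw [memℓp_gen_iff (by norm_num)]
  simp only [ENNReal.toReal_ofNat, Real.rpow_ofNat]

theorem norm_sq_eq_tsum (f : lp (fun _ : ι => E) 2) : ‖f‖ ^ 2 = ∑' i, ‖f i‖ ^ 2 := by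
  have := lp.norm_rpow_eq_tsum (p := 2) (by norm_num) f
  simpa only [ENNReal.toReal_ofNat, Real.rpow_ofNat] using this

theorem summable_norm_sq (f : lp (fun _ : ι => E) 2) : Summable fun i => ‖f i‖ ^ (2 : ℕ) :=
  memlp_two_iff.1 (lp.memℓp f)

/-- `(mono σ A ξ)(i) = A_i (ξ (σ⁻¹ i))`. -/
noncomputable def mono (σ : Equiv.Perm ι) (A : ι → (E ≃ₗᵢ[ℂ] E)) :
    lp (fun _ : ι => E) 2 ≃ₗᵢ[ℂ] lp (fun _ : ι => E) 2 where
  toFun ξ := ⟨fun i => A i (ξ (σ.symm i)), by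
    show Memℓp _ 2
    rw [memlp_two_iff]
    simp only [LinearIsometryEquiv.norm_map]
    exact (σ.symm.summable_iff (f := fun i => ‖ξ i‖ ^ 2)).2 (summable_norm_sq ξ)⟩
  invFun ξ := ⟨fun i => (A (σ i)).symm (ξ (σ i)), by
    show Memℓp _ 2
    rw [memlp_two_iff]
    simp only [LinearIsometryEquiv.norm_map]
    exact (σ.summable_iff (f := fun i => ‖ξ i‖ ^ 2)).2 (summable_norm_sq ξ)⟩
  map_add' ξ η := by
    ext i
    simp
  map_smul' c ξ := by
    ext i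
    simp
  left_inv ξ := by
    ext i
    simp
  right_inv ξ := by
    ext i
    simp
  norm_map' ξ := by
    have h : ∀ x : lp (fun _ : ι => E) 2, 0 ≤ ‖x‖ := fun x => norm_nonneg x
    rw [← sq_eq_sq₀ (h _) (h _), norm_sq_eq_tsum, norm_sq_eq_tsum]
    simp
    exact σ.symm.tsum_eq (fun i => ‖ξ i‖ ^ 2)

@[simp] theorem mono_apply (σ : Equiv.Perm ι) (A : ι → (E ≃ₗᵢ[ℂ] E))
    (ξ : lp (fun _ : ι => E) 2) (i : ι) : (mono σ A ξ) i = A i (ξ (σ.symm i)) := rfl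

@[simp] theorem mono_symm_apply (σ : Equiv.Perm ι) (A : ι → (E ≃ₗᵢ[ℂ] E))
    (ξ : lp (fun _ : ι => E) 2) (i : ι) : ((mono σ A).symm ξ) i = (A (σ i)).symm (ξ (σ i)) := rfl

theorem clm_ext_single {F : Type*} [NormedAddCommGroup F] [InnerProductSpace ℂ F] [DecidableEq ι]
    {S T : lp (fun _ : ι => E) 2 →L[ℂ] F}
    (h : ∀ (i : ι) (e : E), S (lp.single 2 i e) = T (lp.single 2 i e)) : S = T := by
  refine lp.ext_continuousLinearMap (p := 2) (by norm_num) fun i => ?_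
  ext e
  simpa using h i e

end Mono

end Pool.Agent.ErgCoc
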