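import Pool.Agent.Lib_MP_418a80_an.MkImpl

/-!
# Tools: weak limits of contractions along ultrafilters, strong continuity, separability
-/

set_option linter.unusedSectionVars false

namespace Pool.Agent.ErgCoc

open scoped ENNReal ComplexConjugate InnerProductSpace Topology
open Filter Classical

universe u v

section Wot

variable {E : Type u} [NormedAddCommGroup E] [InnerProductSpace ℂ E] [CompleteSpace E]

/-- Contractions have weak operator limits along ultrafilters. -/
theorem exists_wot_limit {X : Type v} (F : Ultrafilter X) (T : X → (E →L[ℂ] E))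
    (hT : ∀ x, ‖T x‖ ≤ 1) :
    ∃ y : E →L[ℂ] E, ‖y‖ ≤ 1 ∧
      ∀ v w : E, Tendsto (fun x => ⟪T x v, w⟫_ℂ) (F : Filter X) (𝓝 ⟪y v, w⟫_ℂ) := by
  have hbd : ∀ v w x, ⟪T x v, w⟫_ℂ ∈ Metric.closedBall (0 : ℂ) (‖v‖ * ‖w‖) := by
    intro v w x
    rw [mem_closedBall_zero_iff]
    calc ‖⟪T x v, w⟫_ℂ‖ ≤ ‖T x v‖ * ‖w‖ := norm_inner_le_norm _ _
      _ ≤ (‖T x‖ * ‖v‖) * ‖w‖ := by gcongr; exact (T x).le_opNorm v
      _ ≤ (1 * ‖v‖) * ‖w‖ := by gcongr; exact hT x
      _ = ‖v‖ * ‖w‖ := by rw [one_mul]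
  have hlim : ∀ v w, ∃ b ∈ Metric.closedBall (0 : ℂ) (‖v‖ * ‖w‖),
      Tendsto (fun x => ⟪T x v, w⟫_ℂ) (F : Filter X) (𝓝 b) := by
    intro v w
    have hcomp : IsCompact (Metric.closedBall (0 : ℂ) (‖v‖ * ‖w‖)) := isCompact_closedBall _ _
    have := hcomp.ultrafilter_le_nhds (F.map (fun x => ⟪T x v, w⟫_ℂ)) (by
      rw [le_principal_iff]
      exact Filter.mem_map.2 (Filter.mem_of_superset Filter.univ_mem (fun x _ => hbd v w x)))
    obtain ⟨b, hb, hb'⟩ := this
    exact ⟨b, hb, hb'⟩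
  choose b hb hb' using hlim
  have hadd1 : ∀ v v' w, b (v + v') w = b v w + b v' w := by
    intro v v' w
    refine tendsto_nhds_unique (hb' (v + v') w) ?_
    have := (hb' v w).add (hb' v' w)
    refine this.congr fun x => ?_
    rw [map_add, inner_add_left]
  have hadd2 : ∀ v w w', b v (w + w') = b v w + b v w' := by
    intro v w w'
    refine tendsto_nhds_unique (hb' v (w + w')) ?_
    have := (hb' v w).add (hb' v w')
    refine this.congr fun x => ?_
    rw [inner_add_right]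
  have hsmul1 : ∀ (c : ℂ) v w, b (c • v) w = conj c * b v w := by
    intro c v w
    refine tendsto_nhds_unique (hb' (c • v) w) ?_
    have := (hb' v w).const_mul (conj c)
    refine this.congr fun x => ?_
    rw [map_smul, inner_smul_left]
  have hsmul2 : ∀ (c : ℂ) v w, b v (c • w) = c * b v w := by
    intro c v w
    refine tendsto_nhds_unique (hb' v (c • w)) ?_
    have := (hb' v w).const_mul c
    refine this.congr fun x => ?_
    rw [inner_smul_right]
  let B₀ : E →ₗ⋆[ℂ] E →ₗ[ℂ] ℂ := LinearMap.mk₂'ₛₗ (starRingEnd ℂ) (RingHom.id ℂ) b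
    hadd1 (fun c v w => by rw [hsmul1]; rfl) hadd2 (fun c v w => by rw [hsmul2]; rfl)
  let B : E →L⋆[ℂ] E →L[ℂ] ℂ := LinearMap.mkContinuous₂ B₀ 1 (by
    intro v w
    rw [one_mul]
    have := hb v w
    rwa [mem_closedBall_zero_iff] at this)
  have hB : ∀ v w, B v w = b v w := fun v w => rfl
  refine ⟨InnerProductSpace.continuousLinearMapOfBilin B, ?_, ?_⟩
  · refine ContinuousLinearMap.opNorm_le_bound _ zero_le_one fun v => ?_
    set y := InnerProductSpace.continuousLinearMapOfBilin B v with hy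
    have h1 : ⟪y, y⟫_ℂ = b v y := by
      rw [hy, InnerProductSpace.continuousLinearMapOfBilin_apply, hB]
    have h2 : ‖b v y‖ ≤ ‖v‖ * ‖y‖ := by
      have := hb v y
      rwa [mem_closedBall_zero_iff] at this
    rw [← h1, inner_self_eq_norm_sq_to_K] at h2
    have h3 : ‖((‖y‖ : ℂ)) ^ 2‖ = ‖y‖ * ‖y‖ := by
      rw [norm_pow, Complex.norm_real, norm_norm, sq]
    rw [show ((‖y‖ : ℂ)) = ((‖y‖ : ℝ) : ℂ) from rfl] at h3
    have h4 : ‖y‖ * ‖y‖ ≤ ‖v‖ * ‖y‖ := by
      rw [← h3]; exact h2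
    rw [one_mul]
    by_cases h5 : ‖y‖ = 0
    · rw [h5]; exact norm_nonneg _
    · exact le_of_mul_le_mul_right h4 (lt_of_le_of_ne (norm_nonneg _) (Ne.symm h5))
  · intro v w
    rw [InnerProductSpace.continuousLinearMapOfBilin_apply, hB]
    exact hb' v w

end Wot

section Cont

variable {Γ : Type u} [Group Γ]

theorem continuous_of_dl {X : Type v} [TopologicalSpace X] (T : X → (L2 Γ →L[ℂ] L2 Γ)) (C : ℝ)
    (hC : ∀ x, ‖T x‖ ≤ C) (h : ∀ s, Continuous fun x => T x (dl s)) (ξ : L2 Γ) :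
    Continuous fun x => T x ξ := by
  have hsum := lp.hasSum_single (p := 2) (by norm_num) ξ
  have hC0 : ∀ x : X, 0 ≤ C := fun x => (norm_nonneg _).trans (hC x)
  have hunif : TendstoUniformly (fun (F : Finset Γ) (x : X) =>
      T x (∑ s ∈ F, lp.single 2 s (ξ s))) (fun x => T x ξ) atTop := by
    rw [Metric.tendstoUniformly_iff]
    intro ε hε
    have h1 := (Metric.tendsto_nhds.1 hsum) (ε / (|C| + 1)) (by positivity)
    filter_upwards [h1] with F hF x
    rw [dist_eq_norm, ← map_sub]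
    rw [dist_eq_norm, norm_sub_rev] at hF
    have hC1 : C < |C| + 1 := by linarith [le_abs_self C]
    calc ‖T x (ξ - ∑ s ∈ F, lp.single 2 s (ξ s))‖
        ≤ ‖T x‖ * ‖ξ - ∑ s ∈ F, lp.single 2 s (ξ s)‖ := (T x).le_opNorm _
      _ ≤ C * ‖ξ - ∑ s ∈ F, lp.single 2 s (ξ s)‖ := by gcongr; exact hC x
      _ ≤ (|C| + 1) * ‖ξ - ∑ s ∈ F, lp.single 2 s (ξ s)‖ := by gcongr
      _ < (|C| + 1) * (ε / (|C| + 1)) := by gcongr
      _ = ε := by field_simp
  refine hunif.continuous (Frequently.of_forall fun F => ?_)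
  simp only [map_sum]
  refine continuous_finsetSum _ fun s _ => ?_
  have : (lp.single 2 s (ξ s) : L2 Γ) = ξ s • dl s := by
    unfold dl
    rw [← lp.single_smul]
    simp
  simp only [this, map_smul]
  exact (h s).const_smul (ξ s)

variable (Γ) in
theorem separableSpace_L2 [Countable Γ] : TopologicalSpace.SeparableSpace (L2 Γ) := by
  rw [← TopologicalSpace.isSeparable_univ_iff]
  have h1 : TopologicalSpace.IsSeparable (Set.range (dl : Γ → L2 Γ)) :=
    (Set.countable_range _).isSeparable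
  have h2 : TopologicalSpace.IsSeparable
      (closure (Submodule.span ℂ (Set.range (dl : Γ → L2 Γ)) : Set (L2 Γ))) :=
    (h1.span (R := ℂ)).closure
  refine h2.mono ?_
  intro ξ _
  have hsum := lp.hasSum_single (p := 2) (by norm_num) ξ
  refine mem_closure_of_tendsto hsum (Eventually.of_forall fun F => ?_)
  refine Submodule.sum_mem _ fun s _ => ?_
  have : (lp.single 2 s (ξ s) : L2 Γ) = ξ s • dl s := by
    unfold dl
    rw [← lp.single_smul]
    simp
  rw [this]
  exact Submodule.smul_mem _ _ (Submodule.subset_span ⟨s, rfl⟩)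

end Cont

end Pool.Agent.ErgCoc
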